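import Pool.Agent.Lib.MP_bcd198_co.IfP

/-!
# Stream A (unlabelled counting, section 9 of the blueprint): definitions
-/

set_option autoImplicit false

namespace MPbcd198.A

open Equiv

/-- number of isomorphism classes of maps with `2m` flags -/
noncomputable def u (p q m : ℕ) : ℕ := Nat.card (MapClass p q m)

/-- number of isomorphism classes of transitive maps -/
noncomputable def uc (p q m : ℕ) : ℕ := Nat.card {x : MapClass p q m //
  ∃ M : MapOn p q (Fin (2 * m)), Quotient.mk (mapSetoid p q _) M = x ∧ TripTrans M.1}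

/-- number of isomorphism classes of intransitive maps -/
noncomputable def ud (p q m : ℕ) : ℕ := Nat.card {x : MapClass p q m //
  ∃ M : MapOn p q (Fin (2 * m)), Quotient.mk (mapSetoid p q _) M = x ∧ ¬ TripTrans M.1}

/-- `t(m) = N(m) / (2m)!` -/
noncomputable def tt (p q m : ℕ) : ℝ := (NMap p q m : ℝ) / ((2 * m).factorial : ℝ)

/-- `g(m) = s_p s_q s_2 (m) / (2m)!` -/
noncomputable def gg (p q m : ℕ) : ℝ :=
  sNum p m * sNum q m * sNum 2 m / ((2 * m).factorial : ℝ)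

/-- the admissible `m` -/
def Ok (p q m : ℕ) : Prop := p ∣ m ∧ q ∣ m ∧ 2 ∣ m

/-- automorphisms of a triple -/
def AutM {Ω : Type} (M : Trip Ω) : Subgroup (Perm Ω) :=
  Subgroup.centralizer ({M.1, M.2.1, M.2.2} : Set (Perm Ω))

theorem kap_pos {p q : ℕ} (hyp : Hyp p q) : 0 < kap p q := by
  have hp := hyp.hp
  have hq := hyp.hq
  have hk := hyp.hk
  obtain ⟨p', rfl⟩ : ∃ p', p = p' + 2 := ⟨p - 2, by omega⟩
  obtain ⟨q', rfl⟩ : ∃ q', q = q' + 2 := ⟨q - 2, by omega⟩
  simp only [Nat.add_sub_cancel] at hk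
  have hk' : (4 : ℝ) < (p' : ℝ) * q' := by exact_mod_cast hk
  unfold kap
  push_cast
  have hp0 : (0 : ℝ) ≤ (p' : ℝ) := Nat.cast_nonneg _
  have hq0 : (0 : ℝ) ≤ (q' : ℝ) := Nat.cast_nonneg _
  have h1 : (1 : ℝ) / 2 - 1 / ((p' : ℝ) + 2) - 1 / ((q' : ℝ) + 2) =
      ((p' : ℝ) * q' - 4) / (2 * ((p' : ℝ) + 2) * ((q' : ℝ) + 2)) := by
    field_simp
    ring
  rw [h1]
  apply div_pos
  · linarith
  · positivity

end MPbcd198.A
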