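import Pool.Agent.Lib.MP_bcd198_co.A.Base

/-!
# JOB A/Cls: classes and automorphisms

* finiteness: `MapOn p q Ω` is a subtype of a finite type for finite `Ω`.
* `u_le`: the quotient map is surjective.
* `u_le_add`: every class has a representative, which is transitive or not.
* `nmap_zero_u`: if there is no map there is no class.
* `aut_bound`: `Perm (Fin (2m))` acts on `MapOn p q (Fin (2m))` by conjugation; the class of `M` is the orbit; the stabiliser of `M` is `AutM M.1`, so
  the orbit has `(2m)! / |AutM M.1|` elements (orbit-stabiliser: `MulAction.card_orbit_mul_card_stabilizer_eq_card_group`, or directly: the map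
  `σ ↦ σ M σ⁻¹` from `Perm` onto the class has fibres of size `|AutM|`). The classes in question have at least `(2m)!/B` members each and they are disjoint
  subsets of `MapOn`: `#classes * (2m)! ≤ B * N(m)`.
* `aut_iso`: conjugate maps have conjugate automorphism groups (needed if the chosen representative changes).
* `free`: `σ ∈ AutM M` commutes with the group generated by `M.1, M.2.1, M.2.2`; if `σ x = x` and `M` is transitive then `σ (g x) = g (σ x) = g x` for all `g` in the
  group (`Subgroup.closure_induction`), so `σ = 1`.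
-/

set_option autoImplicit false

namespace MPbcd198.A

open Equiv

variable {p q m : ℕ}

instance finite_mapOn (p q n : ℕ) : Finite (MapOn p q (Fin n)) := Subtype.finite

instance finite_mapClass (p q m : ℕ) : Finite (MapClass p q m) := Quotient.finite _

theorem u_le (p q m : ℕ) : u p q m ≤ NMap p q m :=
  Nat.card_le_card_of_surjective (Quotient.mk (mapSetoid p q (Fin (2 * m)))) Quotient.mk_surjective

theorem u_le_add (p q m : ℕ) : u p q m ≤ uc p q m + ud p q m := by
  have h := Set.ncard_union_le {x : MapClass p q m |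
      ∃ M : MapOn p q (Fin (2 * m)), Quotient.mk (mapSetoid p q _) M = x ∧ TripTrans M.1}
    {x : MapClass p q m |
      ∃ M : MapOn p q (Fin (2 * m)), Quotient.mk (mapSetoid p q _) M = x ∧ ¬ TripTrans M.1}
  have h2 : ({x : MapClass p q m |
      ∃ M : MapOn p q (Fin (2 * m)), Quotient.mk (mapSetoid p q _) M = x ∧ TripTrans M.1} ∪
    {x : MapClass p q m |
      ∃ M : MapOn p q (Fin (2 * m)), Quotient.mk (mapSetoid p q _) M = x ∧ ¬ TripTrans M.1}) =
      Set.univ := by
    apply Set.eq_univ_of_forall
    intro x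
    obtain ⟨M, rfl⟩ := Quotient.exists_rep x
    by_cases hM : TripTrans M.1
    · exact Or.inl ⟨M, rfl, hM⟩
    · exact Or.inr ⟨M, rfl, hM⟩
  rw [h2, Set.ncard_univ] at h
  exact h

theorem uc_le (p q m : ℕ) : uc p q m ≤ u p q m :=
  Nat.card_le_card_of_injective Subtype.val Subtype.val_injective

theorem ud_le (p q m : ℕ) : ud p q m ≤ u p q m :=
  Nat.card_le_card_of_injective Subtype.val Subtype.val_injective

private theorem cls_pm {Ω : Type} (σ : Perm Ω) {a : Perm Ω} (h : IsPM a) :
    IsPM (σ * a * σ⁻¹) := by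
  intro x
  have h1 := h (σ⁻¹ x)
  constructor
  · intro h2
    apply h1.1
    apply σ.injective
    simpa using h2
  · have k1 : ∀ y, σ⁻¹ (σ y) = y := fun y => by simp
    have k2 : ∀ y, σ (σ⁻¹ y) = y := fun y => by simp
    simp only [Perm.mul_apply]
    rw [k1, h1.2, k2]

private theorem cls_rel {Ω : Type} (σ : Perm Ω) {a b : Perm Ω} {r : ℕ} (h : Rel r a b) :
    Rel r (σ * a * σ⁻¹) (σ * b * σ⁻¹) := by
  intro x
  rw [← h (σ⁻¹ x), Function.minimalPeriod_eq_minimalPeriod_iff]
  intro n
  have e : (σ * a * σ⁻¹) * (σ * b * σ⁻¹) = σ * (a * b) * σ⁻¹ := by group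
  unfold Function.IsPeriodicPt Function.IsFixedPt
  rw [e, Perm.iterate_eq_pow, Perm.iterate_eq_pow, conj_pow, Perm.mul_apply, Perm.mul_apply]
  have k1 : ∀ y, σ⁻¹ (σ y) = y := fun y => by simp
  have k2 : ∀ y, σ (σ⁻¹ y) = y := fun y => by simp
  constructor
  · intro h2
    apply σ.injective
    rw [h2, k2]
  · intro h2
    rw [h2, k2]

/-- conjugation of a map -/
private def clsConj {Ω : Type} (σ : Perm Ω) (M : MapOn p q Ω) : MapOn p q Ω :=
  ⟨(σ * M.1.1 * σ⁻¹, σ * M.1.2.1 * σ⁻¹, σ * M.1.2.2 * σ⁻¹),
    { pa := cls_pm σ M.2.pa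
      pb := cls_pm σ M.2.pb
      pc := cls_pm σ M.2.pc
      ab := cls_rel σ M.2.ab
      bc := cls_rel σ M.2.bc
      ac := cls_rel σ M.2.ac }⟩

theorem aut_bound (p q m B : ℕ) :
    (Nat.card {x : MapClass p q m // ∃ M : MapOn p q (Fin (2 * m)),
      Quotient.mk (mapSetoid p q _) M = x ∧ Nat.card (AutM M.1) ≤ B}) * (2 * m).factorial ≤
        B * NMap p q m := by
  classical
  let C := {x : MapClass p q m // ∃ M : MapOn p q (Fin (2 * m)),
      Quotient.mk (mapSetoid p q _) M = x ∧ Nat.card (AutM M.1) ≤ B}
  have hC : ∀ x : C, ∃ M : MapOn p q (Fin (2 * m)),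
      Quotient.mk (mapSetoid p q _) M = x.1 ∧ Nat.card (AutM M.1) ≤ B := fun x => x.2
  choose R hR1 hR2 using hC
  haveI : Finite C := Subtype.finite
  letI : Fintype C := Fintype.ofFinite _
  letI : Fintype (MapOn p q (Fin (2 * m))) := Fintype.ofFinite _
  have h := Finset.card_le_mul_card_image_of_maps_to
    (f := fun z : C × Perm (Fin (2 * m)) => clsConj z.2 (R z.1))
    (s := Finset.univ) (t := Finset.univ) (fun _ _ => Finset.mem_univ _) B (by
      intro M' _
      rcases Finset.eq_empty_or_nonempty (Finset.univ.filter fun z : C × Perm (Fin (2 * m)) =>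
        clsConj z.2 (R z.1) = M') with he | ⟨⟨x₀, σ₀⟩, h0⟩
      · rw [he]; simp
      · rw [Finset.mem_filter] at h0
        have h0' := h0.2
        simp only at h0'
        refine le_trans ?_ (hR2 x₀)
        rw [← Set.ncard_coe_finset, ← Nat.card_coe_set_eq]
        have hx : ∀ z : C × Perm (Fin (2 * m)), clsConj z.2 (R z.1) = M' → z.1 = x₀ := by
          intro z hz
          apply Subtype.ext
          rw [← hR1 z.1, ← hR1 x₀]
          apply Quotient.sound
          refine ⟨σ₀⁻¹ * z.2, ?_⟩
          rw [← hz] at h0'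
          have e := congrArg Subtype.val h0'
          simp only [clsConj, Prod.mk.injEq] at e
          obtain ⟨e1, e2, e3⟩ := e
          refine ⟨?_, ?_, ?_⟩
          · calc (R x₀).1.1 = σ₀⁻¹ * (σ₀ * (R x₀).1.1 * σ₀⁻¹) * σ₀ := by group
              _ = _ := by rw [e1]; group
          · calc (R x₀).1.2.1 = σ₀⁻¹ * (σ₀ * (R x₀).1.2.1 * σ₀⁻¹) * σ₀ := by group
              _ = _ := by rw [e2]; group
          · calc (R x₀).1.2.2 = σ₀⁻¹ * (σ₀ * (R x₀).1.2.2 * σ₀⁻¹) * σ₀ := by group
              _ = _ := by rw [e3]; group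
        have hmem : ∀ z : C × Perm (Fin (2 * m)), clsConj z.2 (R z.1) = M' →
            σ₀⁻¹ * z.2 ∈ AutM (R x₀).1 := by
          intro z hz
          have hz1 := hx z hz
          rw [hz1, ← h0'] at hz
          have e := congrArg Subtype.val hz
          simp only [clsConj, Prod.mk.injEq] at e
          obtain ⟨e1, e2, e3⟩ := e
          unfold AutM
          rw [Subgroup.mem_centralizer_iff]
          have key : ∀ a : Perm (Fin (2 * m)), z.2 * a * z.2⁻¹ = σ₀ * a * σ₀⁻¹ →
              a * (σ₀⁻¹ * z.2) = σ₀⁻¹ * z.2 * a := by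
            intro a ha
            calc a * (σ₀⁻¹ * z.2) = σ₀⁻¹ * (σ₀ * a * σ₀⁻¹) * z.2 := by group
              _ = _ := by rw [← ha]; group
          intro a ha
          simp only [Set.mem_insert_iff, Set.mem_singleton_iff] at ha
          rcases ha with rfl | rfl | rfl
          · exact key _ e1
          · exact key _ e2
          · exact key _ e3
        refine Nat.card_le_card_of_injective
          (fun z : ((Finset.univ.filter fun z : C × Perm (Fin (2 * m)) =>
            clsConj z.2 (R z.1) = M' : Finset (C × Perm (Fin (2 * m)))) : Set _) =>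
            (⟨σ₀⁻¹ * z.1.2, hmem z.1 (by
              have := z.2
              rw [Finset.mem_coe, Finset.mem_filter] at this
              exact this.2)⟩ : AutM (R x₀).1)) ?_
        intro z z' hzz
        have h1 := z.2
        have h2 := z'.2
        rw [Finset.mem_coe, Finset.mem_filter] at h1 h2
        have e := congrArg Subtype.val hzz
        simp only at e
        have e2 : z.1.2 = z'.1.2 := mul_left_cancel e
        apply Subtype.ext
        apply Prod.ext
        · rw [hx _ h1.2, hx _ h2.2]
        · exact e2)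
  rw [Finset.card_univ, Finset.card_univ, Fintype.card_prod, Fintype.card_perm, Fintype.card_fin,
    ← Nat.card_eq_fintype_card, ← Nat.card_eq_fintype_card] at h
  exact h

theorem free {Ω : Type} {M : Trip Ω} (h : TripTrans M) {σ : Perm Ω} (hσ : σ ∈ AutM M) {x : Ω}
    (hx : σ x = x) : σ = 1 := by
  unfold AutM at hσ
  rw [Subgroup.mem_centralizer_iff] at hσ
  have hcomm : ∀ g ∈ Subgroup.closure ({M.1, M.2.1, M.2.2} : Set (Perm Ω)), g * σ = σ * g := by
    intro g hg
    induction hg using Subgroup.closure_induction with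
    | mem u hu => exact hσ u hu
    | one => simp
    | mul u v _ _ ihu ihv => rw [mul_assoc, ihv, ← mul_assoc, ihu, mul_assoc]
    | inv u _ ih =>
      calc u⁻¹ * σ = u⁻¹ * (σ * u) * u⁻¹ := by group
        _ = u⁻¹ * (u * σ) * u⁻¹ := by rw [ih]
        _ = σ * u⁻¹ := by group
  ext y
  obtain ⟨g, hg, hgy⟩ := h x y
  have := congrArg (fun s : Perm Ω => s x) (hcomm g hg)
  simp only [Perm.mul_apply, hx, hgy] at this
  rw [Perm.one_apply]
  exact this.symm

end MPbcd198.A
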