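import Pool.Agent.Lib.MP_bcd198_co.A.Cls

/-!
# JOB A/Dec: splitting off the smallest component

* `dec_exists`: `M` intransitive. Let `G` be the group generated by `M.1, M.2.1, M.2.2`; take a point `x` whose `G`-orbit `O` has the least number of elements. There is a point outside `O`
  (otherwise `M` is transitive); its orbit is disjoint from `O` and has at least `|O|` elements, so `2 |O| ≤ 2m`. `O` is closed under `a` which has no fixed point, so `|O| = 2 m₁`;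
  `m₁ ≥ 1`, `2 m₁ ≤ m`. Choose bijections `Fin (2m₁) ≃ O`, `Fin (2(m - m₁)) ≃ Oᶜ`; together a bijection `e : Fin (2m₁) ⊕ Fin (2(m-m₁)) ≃ Fin (2m)`. The restrictions of `a, b, c` to `O` and `Oᶜ`
  (`Equiv.Perm.subtypePerm`) are maps (`IsPM`, minimal periods are inherited by invariant subsets) and the first one is transitive.
* `ud_le_sum`: if `M`, `M'` have decompositions with the same `m₁` and isomorphic parts `M₁ ≅ M₁'`, `M₂ ≅ M₂'` then `M ≅ M'` (conjugate by `e' ∘ (σ₁ ⊕ σ₂) ∘ e⁻¹`). So choosing a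
  decomposition for every intransitive class gives an injection into the disjoint union over `m₁ ∈ [1, m/2]` of (transitive classes of size `m₁`) × (classes of size `m - m₁`)
  (`Nat.card_sigma`, `Fintype.card_sigma`).
-/

set_option autoImplicit false

namespace MPbcd198.A

open Equiv

/-- maps are inherited by equivariant injections -/
private theorem dec_isMap {p q : ℕ} {Ω Ω' : Type} {a b c : Perm Ω} {a' b' c' : Perm Ω'}
    (h : IsMap p q a b c) (φ : Ω' → Ω) (hφ : Function.Injective φ)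
    (ha : ∀ y, φ (a' y) = a (φ y)) (hb : ∀ y, φ (b' y) = b (φ y)) (hc : ∀ y, φ (c' y) = c (φ y)) :
    IsMap p q a' b' c' := by
  have hpm : ∀ {a : Perm Ω} {a' : Perm Ω'}, IsPM a → (∀ y, φ (a' y) = a (φ y)) → IsPM a' := by
    intro a a' h1 h2 x
    constructor
    · intro h3
      apply (h1 (φ x)).1
      rw [← h2, h3]
    · apply hφ
      rw [h2, h2, (h1 (φ x)).2]
  have hrel : ∀ {a b : Perm Ω} {a' b' : Perm Ω'} {r : ℕ}, Rel r a b → (∀ y, φ (a' y) = a (φ y)) →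
      (∀ y, φ (b' y) = b (φ y)) → Rel r a' b' := by
    intro a b a' b' r h1 h2 h3 x
    rw [← h1 (φ x), Function.minimalPeriod_eq_minimalPeriod_iff]
    intro n
    have hs : Function.Semiconj φ (⇑(a' * b')) (⇑(a * b)) := by
      intro y
      simp only [Perm.mul_apply, h2, h3]
    have hn := (hs.iterate_right n) x
    unfold Function.IsPeriodicPt Function.IsFixedPt
    constructor
    · intro h4
      rw [← hn, h4]
    · intro h4
      apply hφ
      rw [hn, h4]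
  exact ⟨hpm h.pa ha, hpm h.pb hb, hpm h.pc hc, hrel h.ab ha hb, hrel h.bc hb hc, hrel h.ac ha hc⟩

private theorem dec_even {Ω : Type} [Finite Ω] {a : Perm Ω} (h : IsPM a) : 2 ∣ Nat.card Ω := by
  classical
  have : Fintype Ω := Fintype.ofFinite Ω
  have h1 : a ^ 2 = 1 := by
    ext x
    simpa [pow_two] using (h x).2
  have h2 := Equiv.Perm.two_dvd_card_support h1
  have h3 : a.support = Finset.univ := by
    ext x
    simp [(h x).1]
  rw [h3, Finset.card_univ, ← Nat.card_eq_fintype_card] at h2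
  exact h2

private def DInv {Ω : Type} (M : Trip Ω) (O : Set Ω) : Prop :=
  ∀ x ∈ O, M.1 x ∈ O ∧ M.2.1 x ∈ O ∧ M.2.2 x ∈ O

private theorem dec_orbit {Ω Ω' : Type} (M : Trip Ω) (M' : Trip Ω') (φ : Ω' → Ω)
    (ha : ∀ y, φ (M'.1 y) = M.1 (φ y)) (hb : ∀ y, φ (M'.2.1 y) = M.2.1 (φ y))
    (hc : ∀ y, φ (M'.2.2 y) = M.2.2 (φ y)) (x : Ω') :
    DInv M {z | ∃ g ∈ Subgroup.closure ({M'.1, M'.2.1, M'.2.2} : Set (Perm Ω')), φ (g x) = z} := by
  rintro z ⟨g, hg, rfl⟩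
  refine ⟨⟨M'.1 * g, Subgroup.mul_mem _ (Subgroup.subset_closure (by simp)) hg, ?_⟩,
    ⟨M'.2.1 * g, Subgroup.mul_mem _ (Subgroup.subset_closure (by simp)) hg, ?_⟩,
    ⟨M'.2.2 * g, Subgroup.mul_mem _ (Subgroup.subset_closure (by simp)) hg, ?_⟩⟩
  · rw [Perm.mul_apply, ha]
  · rw [Perm.mul_apply, hb]
  · rw [Perm.mul_apply, hc]

private theorem dec_iff {Ω : Type} {a : Perm Ω} (h : IsPM a) {O : Set Ω}
    (hO : ∀ x ∈ O, a x ∈ O) (x : Ω) : a x ∈ O ↔ x ∈ O := by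
  constructor
  · intro hx
    have := hO _ hx
    rwa [(h x).2] at this
  · exact hO x

private theorem dec_compl {p q : ℕ} {Ω : Type} {M : Trip Ω} (h : IsMap p q M.1 M.2.1 M.2.2)
    {O : Set Ω} (hO : DInv M O) : DInv M Oᶜ := by
  intro x hx
  refine ⟨fun h1 => hx ?_, fun h1 => hx ?_, fun h1 => hx ?_⟩
  · exact (dec_iff h.pa (fun y hy => (hO y hy).1) x).mp h1
  · exact (dec_iff h.pb (fun y hy => (hO y hy).2.1) x).mp h1
  · exact (dec_iff h.pc (fun y hy => (hO y hy).2.2) x).mp h1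

/-- the restriction of a map to an invariant set, transported to `Fin n` -/
private theorem dec_restrict {p q n k : ℕ} (M : MapOn p q (Fin n)) {O : Set (Fin n)}
    (hO : DInv M.1 O) (e : Fin k ≃ O) :
    ∃ M₁ : MapOn p q (Fin k), (∀ y, (e (M₁.1.1 y) : Fin n) = M.1.1 (e y)) ∧
      (∀ y, (e (M₁.1.2.1 y) : Fin n) = M.1.2.1 (e y)) ∧
      (∀ y, (e (M₁.1.2.2 y) : Fin n) = M.1.2.2 (e y)) := by
  have key : ∀ {a : Perm (Fin n)} (ha : ∀ x, a x ∈ O ↔ x ∈ O),
      ∀ y, (e (e.symm.permCongr (a.subtypePerm ha) y) : Fin n) = a (e y) := by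
    intro a ha y
    simp [Equiv.permCongr_apply]
  have h1 := fun x => dec_iff M.2.pa (fun y hy => (hO y hy).1) x
  have h2 := fun x => dec_iff M.2.pb (fun y hy => (hO y hy).2.1) x
  have h3 := fun x => dec_iff M.2.pc (fun y hy => (hO y hy).2.2) x
  refine ⟨⟨(e.symm.permCongr (M.1.1.subtypePerm h1), e.symm.permCongr (M.1.2.1.subtypePerm h2),
    e.symm.permCongr (M.1.2.2.subtypePerm h3)), ?_⟩, key h1, key h2, key h3⟩
  exact dec_isMap M.2 (fun y => (e y : Fin n)) (fun y z h => e.injective (Subtype.ext h))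
    (key h1) (key h2) (key h3)

theorem dec_exists {p q m : ℕ} (M : MapOn p q (Fin (2 * m))) (h : ¬ TripTrans M.1) :
    ∃ m₁ : ℕ, 1 ≤ m₁ ∧ 2 * m₁ ≤ m ∧ ∃ (e : Fin (2 * m₁) ⊕ Fin (2 * (m - m₁)) ≃ Fin (2 * m))
      (M₁ : MapOn p q (Fin (2 * m₁))) (M₂ : MapOn p q (Fin (2 * (m - m₁)))),
      TripTrans M₁.1 ∧ M.1.1 = e.permCongr (Equiv.sumCongr M₁.1.1 M₂.1.1) ∧
        M.1.2.1 = e.permCongr (Equiv.sumCongr M₁.1.2.1 M₂.1.2.1) ∧
        M.1.2.2 = e.permCongr (Equiv.sumCongr M₁.1.2.2 M₂.1.2.2) := by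
  classical
  -- a smallest nonempty invariant set
  have hne : ∃ x : Fin (2 * m), True := by
    by_contra h0
    exact h fun x => absurd ⟨x, trivial⟩ h0
  obtain ⟨x₀, -⟩ := hne
  have hS : (Set.Finite {O : Set (Fin (2 * m)) | O.Nonempty ∧ DInv M.1 O}) := Set.toFinite _
  have hSne : {O : Set (Fin (2 * m)) | O.Nonempty ∧ DInv M.1 O}.Nonempty :=
    ⟨Set.univ, ⟨x₀, trivial⟩, fun _ _ => ⟨trivial, trivial, trivial⟩⟩
  obtain ⟨O, ⟨hOne, hOinv⟩, hOmin⟩ := hS.exists_minimalFor (fun O => O.ncard) _ hSne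
  have hmin : ∀ O' : Set (Fin (2 * m)), O'.Nonempty → DInv M.1 O' → O.ncard ≤ O'.ncard := by
    intro O' h1 h2
    rcases le_total O.ncard O'.ncard with h3 | h3
    · exact h3
    · exact hOmin ⟨h1, h2⟩ h3
  -- the complement is not empty
  have hcne : (Oᶜ).Nonempty := by
    by_contra h0
    rw [Set.not_nonempty_iff_eq_empty, Set.compl_empty_iff] at h0
    apply h
    intro x y
    have h1 := hmin {z | ∃ g ∈ Subgroup.closure ({M.1.1, M.1.2.1, M.1.2.2} :
        Set (Perm (Fin (2 * m)))), id (g x) = z} ⟨x, 1, Subgroup.one_mem _, rfl⟩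
      (dec_orbit M.1 M.1 id (fun _ => rfl) (fun _ => rfl) (fun _ => rfl) x)
    rw [h0] at h1
    have h2 := Set.eq_of_subset_of_ncard_le (Set.subset_univ _) h1
    have h3 : y ∈ (Set.univ : Set (Fin (2 * m))) := trivial
    rw [← h2] at h3
    exact h3
  have hcinv : DInv M.1 Oᶜ := dec_compl M.2 hOinv
  have hcard : O.ncard + (Oᶜ).ncard = 2 * m := by
    rw [Set.ncard_add_ncard_compl, Nat.card_eq_fintype_card, Fintype.card_fin]
  have hle := hmin _ hcne hcinv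
  have hpos : 0 < O.ncard := (Set.ncard_pos (Set.toFinite _)).mpr hOne
  -- parity
  have heven : 2 ∣ O.ncard := by
    have e0 : Fin O.ncard ≃ O := by
      rw [← Nat.card_coe_set_eq]
      exact (Finite.equivFin O).symm
    obtain ⟨M₁, -, -, -⟩ := dec_restrict M hOinv e0
    have := dec_even M₁.2.pa
    simpa using this
  obtain ⟨m₁, hm₁⟩ := heven
  have hm₂ : (Oᶜ).ncard = 2 * (m - m₁) := by omega
  have e1 : Fin (2 * m₁) ≃ O := by
    rw [← hm₁, ← Nat.card_coe_set_eq]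
    exact (Finite.equivFin O).symm
  have e2 : Fin (2 * (m - m₁)) ≃ (Oᶜ : Set (Fin (2 * m))) := by
    rw [← hm₂, ← Nat.card_coe_set_eq]
    exact (Finite.equivFin _).symm
  obtain ⟨M₁, h1a, h1b, h1c⟩ := dec_restrict M hOinv e1
  obtain ⟨M₂, h2a, h2b, h2c⟩ := dec_restrict M hcinv e2
  refine ⟨m₁, by omega, by omega, (Equiv.sumCongr e1 e2).trans (Equiv.Set.sumCompl O), M₁, M₂,
    ?_, ?_, ?_, ?_⟩
  · intro x y
    have h3 := hmin {z | ∃ g ∈ Subgroup.closure ({M₁.1.1, M₁.1.2.1, M₁.1.2.2} :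
        Set (Perm (Fin (2 * m₁)))), (e1 (g x) : Fin (2 * m)) = z}
      ⟨(e1 x : Fin (2 * m)), 1, Subgroup.one_mem _, rfl⟩
      (dec_orbit M.1 M₁.1 (fun y => (e1 y : Fin (2 * m))) h1a h1b h1c x)
    have h4 : {z | ∃ g ∈ Subgroup.closure ({M₁.1.1, M₁.1.2.1, M₁.1.2.2} :
        Set (Perm (Fin (2 * m₁)))), (e1 (g x) : Fin (2 * m)) = z} ⊆ O := by
      rintro z ⟨g, -, rfl⟩
      exact (e1 (g x)).2
    have h5 := Set.eq_of_subset_of_ncard_le h4 h3
    have h6 : (e1 y : Fin (2 * m)) ∈ O := (e1 y).2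
    obtain ⟨g, hg, h7⟩ := h5.symm.subset h6
    exact ⟨g, hg, e1.injective (Subtype.ext h7)⟩
  all_goals
    ext x
    obtain ⟨y, rfl⟩ := ((Equiv.sumCongr e1 e2).trans (Equiv.Set.sumCompl O)).surjective x
    rw [Equiv.permCongr_apply, Equiv.symm_apply_apply]
    rcases y with y | y
    · simp only [Equiv.trans_apply, Equiv.sumCongr_apply, Sum.map_inl, Equiv.Set.sumCompl_apply_inl,
        h1a, h1b, h1c]
    · simp only [Equiv.trans_apply, Equiv.sumCongr_apply, Sum.map_inr, Equiv.Set.sumCompl_apply_inr,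
        h2a, h2b, h2c]

private theorem dec_conj {A B Ω : Type} (e e' : A ⊕ B ≃ Ω) (σ₁ a₁ : Perm A) (σ₂ a₂ : Perm B) :
    e'.permCongr (Equiv.sumCongr (σ₁ * a₁ * σ₁⁻¹) (σ₂ * a₂ * σ₂⁻¹)) =
      (e.symm.trans ((Equiv.sumCongr σ₁ σ₂).trans e') : Perm Ω) *
        e.permCongr (Equiv.sumCongr a₁ a₂) *
          (e.symm.trans ((Equiv.sumCongr σ₁ σ₂).trans e') : Perm Ω)⁻¹ := by
  rw [eq_mul_inv_iff_mul_eq]
  ext x
  obtain ⟨y, rfl⟩ := e.surjective x
  rcases y with y | y <;> simp [Equiv.permCongr_apply, Perm.mul_apply]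

theorem ud_le_sum (p q m : ℕ) :
    ud p q m ≤ ∑ m₁ ∈ Finset.Icc 1 (m / 2), uc p q m₁ * u p q (m - m₁) := by
  classical
  -- the target of the injection
  let T : Finset.Icc 1 (m / 2) → Type := fun m₁ =>
    {x : MapClass p q m₁ // ∃ M : MapOn p q (Fin (2 * m₁)),
      Quotient.mk (mapSetoid p q _) M = x ∧ TripTrans M.1} × MapClass p q (m - m₁)
  let P : (Σ m₁ : Finset.Icc 1 (m / 2), T m₁) → MapClass p q m → Prop := fun s x =>
    ∃ (M : MapOn p q (Fin (2 * m))) (M₁ : MapOn p q (Fin (2 * s.1)))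
      (M₂ : MapOn p q (Fin (2 * (m - s.1))))
      (e : Fin (2 * s.1) ⊕ Fin (2 * (m - s.1)) ≃ Fin (2 * m)),
      Quotient.mk (mapSetoid p q _) M = x ∧ Quotient.mk (mapSetoid p q _) M₁ = s.2.1.1 ∧
      Quotient.mk (mapSetoid p q _) M₂ = s.2.2 ∧
      M.1.1 = e.permCongr (Equiv.sumCongr M₁.1.1 M₂.1.1) ∧
        M.1.2.1 = e.permCongr (Equiv.sumCongr M₁.1.2.1 M₂.1.2.1) ∧
        M.1.2.2 = e.permCongr (Equiv.sumCongr M₁.1.2.2 M₂.1.2.2)
  have huniq : ∀ s x x', P s x → P s x' → x = x' := by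
    rintro s x x' ⟨M, M₁, M₂, e, hx, h1, h2, ha, hb, hc⟩ ⟨M', M₁', M₂', e', hx', h1', h2', ha', hb', hc'⟩
    rw [← h1'] at h1
    rw [← h2'] at h2
    obtain ⟨σ₁, s1, s2, s3⟩ := Quotient.exact h1
    obtain ⟨σ₂, t1, t2, t3⟩ := Quotient.exact h2
    rw [← hx, ← hx']
    apply Quotient.sound
    refine ⟨e.symm.trans ((Equiv.sumCongr σ₁ σ₂).trans e'), ?_, ?_, ?_⟩
    · rw [ha, ha', s1, t1, dec_conj e e']
    · rw [hb, hb', s2, t2, dec_conj e e']
    · rw [hc, hc', s3, t3, dec_conj e e']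
  have hex : ∀ x : {x : MapClass p q m // ∃ M : MapOn p q (Fin (2 * m)),
      Quotient.mk (mapSetoid p q _) M = x ∧ ¬ TripTrans M.1}, ∃ s, P s x.1 := by
    rintro ⟨x, M, rfl, hM⟩
    obtain ⟨m₁, h1, h2, e, M₁, M₂, hT, ha, hb, hc⟩ := dec_exists M hM
    exact ⟨⟨⟨m₁, Finset.mem_Icc.mpr ⟨h1, by omega⟩⟩,
      ⟨⟨Quotient.mk (mapSetoid p q _) M₁, M₁, rfl, hT⟩, Quotient.mk (mapSetoid p q _) M₂⟩⟩,
      M, M₁, M₂, e, rfl, rfl, rfl, ha, hb, hc⟩
  choose f hf using hex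
  have hinj : Function.Injective f := by
    intro x x' h
    have h1 := hf x
    rw [h] at h1
    exact Subtype.ext (huniq _ _ _ h1 (hf x'))
  have hfin : ∀ m₁, Finite (T m₁) := fun m₁ => by
    show Finite ({x : MapClass p q m₁ // ∃ M : MapOn p q (Fin (2 * m₁)),
      Quotient.mk (mapSetoid p q _) M = x ∧ TripTrans M.1} × MapClass p q (m - m₁))
    infer_instance
  have hcard := Nat.card_le_card_of_injective f hinj
  rw [Nat.card_sigma] at hcard
  refine le_trans hcard ?_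
  rw [← Finset.sum_coe_sort (Finset.Icc 1 (m / 2)) (fun m₁ => uc p q m₁ * u p q (m - m₁))]
  apply le_of_eq
  apply Finset.sum_congr rfl
  intro m₁ _
  show Nat.card ({x : MapClass p q m₁ // ∃ M : MapOn p q (Fin (2 * m₁)),
      Quotient.mk (mapSetoid p q _) M = x ∧ TripTrans M.1} × MapClass p q (m - m₁)) = _
  rw [Nat.card_prod]
  rfl

end MPbcd198.A
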