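import Mathlib

/-!
# JOB A/Grp: subgroups of controlled order (pure group theory)

* `exists_sub`: let `|H| ≥ B ^ B`. If some prime `ℓ ≥ B` divides `|H|`: Cauchy (`exists_prime_orderOf_dvd_card`), `K = Subgroup.zpowers`. Otherwise all primes dividing
  `|H|` are `< B`, so there are less than `B` of them; if all prime powers `ℓ ^ v` exactly dividing `|H|` were `< B`
  then `|H| = ∏ ℓ ^ v ≤ B ^ (B - 1) < B ^ B`. So some `ℓ ^ v ≥ B`, `ℓ < B`; let `j ≤ v` be the least number with `B ≤ ℓ ^ j`; `j ≥ 1` and `ℓ ^ j = ℓ * ℓ ^ (j-1) < B * B`.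
  `Sylow.exists_subgroup_card_pow_prime`.
* `finite_group`: a group structure on `Fin n` is determined by its multiplication (`Group.ext`).
* `free_card_dvd`: a finite group acting freely on `Fin n` (through `φ : K →* Perm (Fin n)`) has order dividing `n`, and there is an equivariant bijection
  `Fin k × K ≃ Fin n`, `n = k |K|`: choose representatives of the orbits; every orbit has `|K|` elements
  (`MulAction.selfEquivSigmaOrbits...` or by hand: the quotient `Q` of `Fin n` by the orbit relation, `Q × K ≃ Fin n` by `(o, g) ↦ φ g (o.out)`; so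
  `|Q| |K| = n`, `Q ≃ Fin k`).
-/

set_option autoImplicit false

namespace MPbcd198.A

open Equiv

theorem exists_sub (B : ℕ) (hB : 2 ≤ B) (H : Type) [Group H] [Finite H]
    (h : B ^ B ≤ Nat.card H) :
    ∃ K : Subgroup H, ((Nat.card K).Prime ∧ B ≤ Nat.card K) ∨
      (B ≤ Nat.card K ∧ Nat.card K ≤ B ^ 2) := by
  classical
  by_cases hc : ∃ l : ℕ, l.Prime ∧ B ≤ l ∧ l ∣ Nat.card H
  · obtain ⟨l, hl, hBl, hd⟩ := hc
    haveI : Fact l.Prime := ⟨hl⟩
    obtain ⟨x, hx⟩ := exists_prime_orderOf_dvd_card' l hd
    refine ⟨Subgroup.zpowers x, Or.inl ?_⟩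
    rw [Nat.card_zpowers, hx]
    exact ⟨hl, hBl⟩
  · have hn0 : Nat.card H ≠ 0 := Nat.card_pos.ne'
    have hlt : ∀ l ∈ (Nat.card H).primeFactors, l < B := by
      intro l hl
      by_contra hcon
      exact hc ⟨l, Nat.prime_of_mem_primeFactors hl, not_lt.1 hcon,
        Nat.dvd_of_mem_primeFactors hl⟩
    obtain ⟨l, hl, hlB⟩ : ∃ l ∈ (Nat.card H).primeFactors,
        B ≤ l ^ (Nat.card H).factorization l := by
      by_contra hcon
      have hcon' : ∀ l ∈ (Nat.card H).primeFactors,
          l ^ (Nat.card H).factorization l ≤ B := by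
        intro l hl
        by_contra h2
        exact hcon ⟨l, hl, (not_le.1 h2).le⟩
      have h1 : Nat.card H ≤ B ^ (Nat.card H).primeFactors.card := by
        conv_lhs => rw [← Nat.prod_factorization_pow_eq_self hn0]
        rw [Finsupp.prod, Nat.support_factorization]
        exact Finset.prod_le_pow_card _ _ _ hcon'
      have h2 : (Nat.card H).primeFactors.card < B := by
        have hsub : (Nat.card H).primeFactors ⊆ Finset.Ico 1 B := by
          intro l hl
          rw [Finset.mem_Ico]
          exact ⟨(Nat.prime_of_mem_primeFactors hl).one_le, hlt l hl⟩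
        have := Finset.card_le_card hsub
        rw [Nat.card_Ico] at this
        omega
      have h3 : B ^ (Nat.card H).primeFactors.card < B ^ B :=
        Nat.pow_lt_pow_right (by omega) h2
      omega
    have hlp := Nat.prime_of_mem_primeFactors hl
    haveI : Fact l.Prime := ⟨hlp⟩
    have hex : ∃ j, B ≤ l ^ j := ⟨_, hlB⟩
    have hj1 : Nat.find hex ≤ (Nat.card H).factorization l := Nat.find_min' hex hlB
    have hj2 := Nat.find_spec hex
    have hj3 : Nat.find hex ≠ 0 := by
      intro h0
      rw [h0, pow_zero] at hj2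
      omega
    have hj4 : l ^ (Nat.find hex - 1) < B := by
      have := Nat.find_min hex (m := Nat.find hex - 1) (by omega)
      exact not_le.1 this
    have hd : l ^ Nat.find hex ∣ Nat.card H :=
      (pow_dvd_pow l hj1).trans (Nat.ordProj_dvd _ _)
    obtain ⟨K, hK⟩ := Sylow.exists_subgroup_card_pow_prime l hd
    refine ⟨K, Or.inr ?_⟩
    rw [hK]
    refine ⟨hj2, ?_⟩
    have e : l ^ Nat.find hex = l ^ (Nat.find hex - 1) * l := by
      rw [← pow_succ]
      congr 1
      omega
    rw [e, pow_two]
    exact Nat.mul_le_mul hj4.le (hlt l hl).le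

theorem finite_group (n : ℕ) : Finite (Group (Fin n)) := by
  refine Finite.of_injective
    (fun g : Group (Fin n) => @HMul.hMul (Fin n) (Fin n) (Fin n)
      (@instHMul (Fin n) g.toDivInvMonoid.toMonoid.toSemigroup.toMul)) ?_
  intro g₁ g₂ h
  exact Group.ext h

theorem exists_equiv {n : ℕ} (K : Type) [Group K] [Finite K] (φ : K →* Perm (Fin n))
    (hφ : ∀ g : K, g ≠ 1 → ∀ x, φ g x ≠ x) :
    ∃ k : ℕ, k * Nat.card K = n ∧ ∃ e : Fin k × K ≃ Fin n, ∀ i g h, e (i, g * h) = φ g (e (i, h)) := by
  classical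
  let S : Setoid (Fin n) :=
    { r := fun x y => ∃ g, φ g x = y
      iseqv := ⟨fun x => ⟨1, by simp⟩, by
        rintro x y ⟨g, rfl⟩
        exact ⟨g⁻¹, by rw [← Perm.mul_apply, ← map_mul]; simp⟩, by
        rintro x y z ⟨g, rfl⟩ ⟨h, rfl⟩
        exact ⟨h * g, by rw [map_mul, Perm.mul_apply]⟩⟩ }
  have hfin : Finite (Quotient S) := Quotient.finite _
  have hbij : Function.Bijective (fun z : Quotient S × K => φ z.2 z.1.out) := by
    constructor
    · rintro ⟨o, g⟩ ⟨o', g'⟩ h
      simp only at h
      have ho : o = o' := by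
        rw [← Quotient.out_eq o, ← Quotient.out_eq o']
        apply Quotient.sound
        refine ⟨g'⁻¹ * g, ?_⟩
        rw [map_mul, Perm.mul_apply, h, ← Perm.mul_apply, ← map_mul]
        simp
      subst ho
      have h2 : φ (g'⁻¹ * g) o.out = o.out := by
        rw [map_mul, Perm.mul_apply, h, ← Perm.mul_apply, ← map_mul]
        simp
      have h3 : g'⁻¹ * g = 1 := by
        by_contra hne
        exact hφ _ hne _ h2
      have h4 : g = g' := by
        rw [inv_mul_eq_one] at h3
        exact h3.symm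
      rw [h4]
    · intro x
      have h1 : Quotient.mk S (Quotient.mk S x).out = Quotient.mk S x := Quotient.out_eq _
      obtain ⟨g, hg⟩ := Quotient.exact h1
      exact ⟨(Quotient.mk S x, g), hg⟩
  have e1 : Quotient S ≃ Fin (Nat.card (Quotient S)) := Finite.equivFin _
  have hcard : Nat.card (Quotient S) * Nat.card K = n := by
    rw [← Nat.card_prod, Nat.card_congr (Equiv.ofBijective _ hbij), Nat.card_eq_fintype_card,
      Fintype.card_fin]
  refine ⟨Nat.card (Quotient S), hcard,
    (e1.symm.prodCongr (Equiv.refl K)).trans (Equiv.ofBijective _ hbij), ?_⟩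
  intro i g h
  simp only [Equiv.trans_apply, Equiv.prodCongr_apply, Prod.map_apply, Equiv.refl_apply,
    Equiv.ofBijective_apply, map_mul, Perm.mul_apply]

end MPbcd198.A
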