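import Pool.Agent.Lib.MP_bcd198_co.A.Cls
import Pool.Agent.Lib.MP_bcd198_co.A.Grp

/-!
# JOB A/Enc: maps with a free group of automorphisms of given isomorphism type

* `enc_le`: let `E` be the set of classes which contain a map `M` with a free action `φ : K →* Perm` by automorphisms. By `exists_equiv` there are `k` with `k |K| = 2m`
  (so `k` does not depend on `M`) and `e : Fin k × K ≃ Fin (2m)` with `e (i, g h) = φ g (e (i, h))`. Code of `(M, φ, e)`: the three functions
  `F_a, F_b, F_c : Fin k → Fin k × K`, `F_a i = e.symm (M.a (e (i, 1)))`. As `M.a` commutes with `φ g`, `e.symm (M.a (e (i, g))) = ((F_a i).1, g * (F_a i).2)`. So the code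
  determines the triple `e⁻¹ M e` on `Fin k × K`; if `(M, φ, e)`, `(M', φ', e')` have the same code, `σ = e' e⁻¹` satisfies `M' = σ M σ⁻¹` and the
  classes are equal. So choosing a code for every class gives an injection of `E` into `(Fin k → Fin k × K)^3`, a set of
  `((k |K|)^k)^3 = (2m)^(3k)` elements. `k = 2m / |K|`.
* `big_le`: let `x` be a class with a transitive `M`, `|AutM M| ≥ B ^ B`. `AutM M` is finite and acts freely (`free`). Take `K ≤ AutM M` from `exists_sub`; the inclusion is a free action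
  by automorphisms. Case 1: `|K| = ℓ` prime, `ℓ ≥ B`; `K ≃* Multiplicative (ZMod ℓ)` (cyclic groups of the same order), `ℓ ∣ 2m`, `ℓ ≤ 2m`. Case 2: `B ≤ |K| ≤ B^2`:
  `K ≃* Fin n` with a group structure `G` on `Fin n`, `n = |K|` (transport along a bijection `K ≃ Fin n`: `Equiv.group`, `Equiv.mulEquiv`).
  So `x` is in `E (Multiplicative (ZMod ℓ))` for some `B ≤ ℓ ≤ 2m` or in `E (Fin n, G)` for some `B ≤ n ≤ B^2`, `G : Group (Fin n)`. Each of these sets has at most
  `(2m)^(3 * (2m / B)) ≤ (2m)^(6m / B)` elements; there are at most `2m + 1` of the first kind and `C₀ = ∑_{n ≤ B^2} |Group (Fin n)|` of the second: take `C = C₀ + 1`.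
-/

set_option autoImplicit false

namespace MPbcd198.A

open Equiv

/-- (Enc) the class contains a map with a free action of `K` by automorphisms -/
def Enc_P (p q m : ℕ) (K : Type) [Group K] (x : MapClass p q m) : Prop :=
  ∃ M : MapOn p q (Fin (2 * m)),
    Quotient.mk (mapSetoid p q _) M = x ∧ ∃ φ : K →* Perm (Fin (2 * m)),
      (∀ g, φ g ∈ AutM M.1) ∧ ∀ g : K, g ≠ 1 → ∀ y, φ g y ≠ y

private theorem Enc_aut {Ω : Type} {M : Trip Ω} {σ : Perm Ω} (h : σ ∈ AutM M) (y : Ω) :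
    M.1 (σ y) = σ (M.1 y) ∧ M.2.1 (σ y) = σ (M.2.1 y) ∧ M.2.2 (σ y) = σ (M.2.2 y) := by
  unfold AutM at h
  rw [Subgroup.mem_centralizer_iff] at h
  refine ⟨?_, ?_, ?_⟩
  · exact congrArg (fun f : Perm Ω => f y) (h M.1 (by simp))
  · exact congrArg (fun f : Perm Ω => f y) (h M.2.1 (by simp))
  · exact congrArg (fun f : Perm Ω => f y) (h M.2.2 (by simp))

/-- the code of one permutation determines it in the coordinates `e` -/
private theorem Enc_code {n k : ℕ} {K : Type} [Group K] (φ : K →* Perm (Fin n))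
    (e : Fin k × K ≃ Fin n) (he : ∀ i g h, e (i, g * h) = φ g (e (i, h))) (s : Perm (Fin n))
    (hs : ∀ g y, s (φ g y) = φ g (s y)) (i : Fin k) (g : K) :
    e.symm (s (e (i, g))) = ((e.symm (s (e (i, 1)))).1, g * (e.symm (s (e (i, 1)))).2) := by
  apply e.injective
  rw [Equiv.apply_symm_apply, he]
  have h1 : ((e.symm (s (e (i, 1)))).1, (e.symm (s (e (i, 1)))).2) = e.symm (s (e (i, 1))) := rfl
  rw [h1, Equiv.apply_symm_apply, ← hs, ← he, mul_one]

private theorem Enc_conj {n k : ℕ} {K : Type} [Group K] (φ φ' : K →* Perm (Fin n))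
    (e e' : Fin k × K ≃ Fin n) (he : ∀ i g h, e (i, g * h) = φ g (e (i, h)))
    (he' : ∀ i g h, e' (i, g * h) = φ' g (e' (i, h))) (s s' : Perm (Fin n))
    (hs : ∀ g y, s (φ g y) = φ g (s y)) (hs' : ∀ g y, s' (φ' g y) = φ' g (s' y))
    (h : (fun i => e.symm (s (e (i, 1)))) = fun i => e'.symm (s' (e' (i, 1)))) :
    s' = (e.symm.trans e') * s * (e.symm.trans e')⁻¹ := by
  have h1 : ∀ x : Fin k × K, e.symm (s (e x)) = e'.symm (s' (e' x)) := by
    rintro ⟨i, g⟩
    rw [Enc_code φ e he s hs i g, Enc_code φ' e' he' s' hs' i g]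
    have h2 : e.symm (s (e (i, 1))) = e'.symm (s' (e' (i, 1))) := congrFun h i
    rw [h2]
  ext y
  obtain ⟨x, rfl⟩ := e'.surjective y
  have h2 : (e.symm.trans e')⁻¹ (e' x) = e x := by
    rw [Perm.inv_eq_iff_eq]
    change e' x = e' (e.symm (e x))
    rw [Equiv.symm_apply_apply]
  rw [Perm.mul_apply, Perm.mul_apply, h2]
  have h3 : (e.symm.trans e') (s (e x)) = e' (e.symm (s (e x))) := rfl
  rw [h3, h1, Equiv.apply_symm_apply]

theorem enc_le (p q m : ℕ) (K : Type) [Group K] [Finite K] :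
    Nat.card {x : MapClass p q m // ∃ M : MapOn p q (Fin (2 * m)),
      Quotient.mk (mapSetoid p q _) M = x ∧ ∃ φ : K →* Perm (Fin (2 * m)),
        (∀ g, φ g ∈ AutM M.1) ∧ ∀ g : K, g ≠ 1 → ∀ y, φ g y ≠ y} ≤
      (2 * m) ^ (3 * (2 * m / Nat.card K)) := by
  classical
  have hK : 0 < Nat.card K := Nat.card_pos
  set k₀ := 2 * m / Nat.card K with hk₀
  have hex : ∀ x : {x : MapClass p q m // ∃ M : MapOn p q (Fin (2 * m)),
      Quotient.mk (mapSetoid p q _) M = x ∧ ∃ φ : K →* Perm (Fin (2 * m)),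
        (∀ g, φ g ∈ AutM M.1) ∧ ∀ g : K, g ≠ 1 → ∀ y, φ g y ≠ y},
      ∃ (M : MapOn p q (Fin (2 * m))) (φ : K →* Perm (Fin (2 * m)))
        (e : Fin k₀ × K ≃ Fin (2 * m)), Quotient.mk (mapSetoid p q _) M = x.1 ∧
        (∀ g, φ g ∈ AutM M.1) ∧ ∀ i g h, e (i, g * h) = φ g (e (i, h)) := by
    rintro ⟨x, M, hM, φ, h1, h2⟩
    obtain ⟨k, hk, e, he⟩ := exists_equiv K φ h2
    have hkk : k = k₀ := by
      rw [hk₀, ← hk, Nat.mul_div_cancel _ hK]
    subst hkk
    exact ⟨M, φ, e, hM, h1, he⟩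
  choose M φ e hM hφ he using hex
  let code : {x : MapClass p q m // ∃ M : MapOn p q (Fin (2 * m)),
      Quotient.mk (mapSetoid p q _) M = x ∧ ∃ φ : K →* Perm (Fin (2 * m)),
        (∀ g, φ g ∈ AutM M.1) ∧ ∀ g : K, g ≠ 1 → ∀ y, φ g y ≠ y} →
      (Fin k₀ → Fin k₀ × K) × (Fin k₀ → Fin k₀ × K) × (Fin k₀ → Fin k₀ × K) := fun x =>
    (fun i => (e x).symm ((M x).1.1 (e x (i, 1))),
      fun i => (e x).symm ((M x).1.2.1 (e x (i, 1))),
      fun i => (e x).symm ((M x).1.2.2 (e x (i, 1))))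
  have hinj : Function.Injective code := by
    intro x x' hxx
    have c1 := congrArg Prod.fst hxx
    have c2 := congrArg (fun t => t.2.1) hxx
    have c3 := congrArg (fun t => t.2.2) hxx
    simp only [code] at c1 c2 c3
    apply Subtype.ext
    rw [← hM x, ← hM x']
    apply Quotient.sound
    refine ⟨(e x).symm.trans (e x'), ?_, ?_, ?_⟩
    · exact Enc_conj (φ x) (φ x') (e x) (e x') (he x) (he x') _ _
        (fun g y => (Enc_aut (hφ x g) y).1) (fun g y => (Enc_aut (hφ x' g) y).1) c1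
    · exact Enc_conj (φ x) (φ x') (e x) (e x') (he x) (he x') _ _
        (fun g y => (Enc_aut (hφ x g) y).2.1) (fun g y => (Enc_aut (hφ x' g) y).2.1) c2
    · exact Enc_conj (φ x) (φ x') (e x) (e x') (he x) (he x') _ _
        (fun g y => (Enc_aut (hφ x g) y).2.2) (fun g y => (Enc_aut (hφ x' g) y).2.2) c3
  have h1 := Nat.card_le_card_of_injective code hinj
  have h2 : Nat.card ((Fin k₀ → Fin k₀ × K) × (Fin k₀ → Fin k₀ × K) ×
      (Fin k₀ → Fin k₀ × K)) = (k₀ * Nat.card K) ^ (3 * k₀) := by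
    rw [Nat.card_prod, Nat.card_prod, Nat.card_fun, Nat.card_prod, Nat.card_eq_fintype_card,
      Fintype.card_fin]
    ring
  rw [h2] at h1
  refine h1.trans (Nat.pow_le_pow_left ?_ _)
  rw [hk₀]
  exact Nat.div_mul_le_self _ _

private theorem Enc_le {p q m B : ℕ} (hm : 1 ≤ m) (hB : 2 ≤ B) (K : Type) [Group K] [Finite K]
    (hK : B ≤ Nat.card K) :
    Nat.card {x : MapClass p q m // Enc_P p q m K x} ≤ (2 * m) ^ (6 * m / B) := by
  refine (enc_le p q m K).trans (Nat.pow_le_pow_right (by omega) ?_)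
  calc 3 * (2 * m / Nat.card K) ≤ 3 * (2 * m / B) :=
        Nat.mul_le_mul_left _ (Nat.div_le_div_left hK (by omega))
    _ ≤ 3 * (2 * m) / B := Nat.mul_div_le_mul_div_assoc _ _ _
    _ = 6 * m / B := by rw [show 3 * (2 * m) = 6 * m by ring]

private theorem Enc_transport {p q m : ℕ} {K K' : Type} [Group K] [Group K'] (f : K' ≃* K)
    {x : MapClass p q m} (h : Enc_P p q m K x) : Enc_P p q m K' x := by
  obtain ⟨M, hM, φ, h1, h2⟩ := h
  refine ⟨M, hM, φ.comp f.toMonoidHom, fun g => h1 _, fun g hg y => h2 (f g) ?_ y⟩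
  intro h3
  apply hg
  rw [← map_one f] at h3
  exact f.injective h3

private theorem Enc_card_le {p q m : ℕ} (hm : 1 ≤ m) {K : Type} [Group K] [Finite K]
    {x : MapClass p q m} (h : Enc_P p q m K x) : Nat.card K ≤ 2 * m := by
  obtain ⟨M, hM, φ, h1, h2⟩ := h
  obtain ⟨k, hk, -⟩ := exists_equiv K φ h2
  have hk0 : k ≠ 0 := by
    rintro rfl
    omega
  calc Nat.card K = 1 * Nat.card K := (one_mul _).symm
    _ ≤ k * Nat.card K := Nat.mul_le_mul_right _ (by omega)
    _ = 2 * m := hk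

private theorem Enc_big {p q m B : ℕ} (hB : 2 ≤ B) {x : MapClass p q m}
    (h : ∃ M : MapOn p q (Fin (2 * m)),
      Quotient.mk (mapSetoid p q _) M = x ∧ TripTrans M.1 ∧ B ^ B ≤ Nat.card (AutM M.1)) :
    (∃ l : ℕ, l.Prime ∧ B ≤ l ∧ Enc_P p q m (Multiplicative (ZMod l)) x) ∨
      ∃ n : ℕ, B ≤ n ∧ n ≤ B ^ 2 ∧ ∃ G : Group (Fin n), @Enc_P p q m (Fin n) G x := by
  obtain ⟨M, hM, hT, hc⟩ := h
  obtain ⟨K, hK⟩ := exists_sub B hB (AutM M.1) hc
  have hP : Enc_P p q m K x := by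
    refine ⟨M, hM, (AutM M.1).subtype.comp K.subtype, fun g => g.1.2, fun g hg y hy => hg ?_⟩
    have h1 : (((AutM M.1).subtype.comp K.subtype) g : Perm (Fin (2 * m))) = 1 :=
      free hT g.1.2 hy
    apply Subtype.ext
    apply Subtype.ext
    exact h1
  rcases hK with ⟨h1, h2⟩ | ⟨h1, h2⟩
  · left
    refine ⟨Nat.card K, h1, h2, ?_⟩
    have : Fact (Nat.card K).Prime := ⟨h1⟩
    have hcard : Nat.card (Multiplicative (ZMod (Nat.card K))) = Nat.card K :=
      Nat.card_zmod (Nat.card K)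
    exact Enc_transport (mulEquivOfPrimeCardEq hcard rfl) hP
  · right
    refine ⟨Nat.card K, h1, h2, ?_⟩
    have f : Fin (Nat.card K) ≃ K := (Finite.equivFinOfCardEq rfl).symm
    refine ⟨Equiv.group f, ?_⟩
    let _ : Group (Fin (Nat.card K)) := Equiv.group f
    exact Enc_transport (Equiv.mulEquiv f) hP

theorem big_le (p q B : ℕ) (hB : 2 ≤ B) : ∃ C : ℕ, ∀ m : ℕ, 1 ≤ m →
    Nat.card {x : MapClass p q m // ∃ M : MapOn p q (Fin (2 * m)),
      Quotient.mk (mapSetoid p q _) M = x ∧ TripTrans M.1 ∧ B ^ B ≤ Nat.card (AutM M.1)} ≤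
      (C + 2 * m) * (2 * m) ^ (6 * m / B) := by
  classical
  let inst : ∀ n : ℕ, Fintype (Group (Fin n)) := fun n => @Fintype.ofFinite _ (finite_group n)
  refine ⟨∑ n ∈ Finset.Icc B (B ^ 2), Fintype.card (Group (Fin n)), fun m hm => ?_⟩
  let instC : Fintype (MapClass p q m) := Fintype.ofFinite _
  set X := (2 * m) ^ (6 * m / B) with hX
  set S₁ : ℕ → Finset (MapClass p q m) := fun l =>
    Finset.univ.filter fun x => Enc_P p q m (Multiplicative (ZMod l)) x with hS₁
  set S₂ : (n : ℕ) → Group (Fin n) → Finset (MapClass p q m) := fun n G =>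
    Finset.univ.filter fun x => @Enc_P p q m (Fin n) G x with hS₂
  set E : Finset (MapClass p q m) := Finset.univ.filter fun x =>
    ∃ M : MapOn p q (Fin (2 * m)), Quotient.mk (mapSetoid p q _) M = x ∧ TripTrans M.1 ∧
      B ^ B ≤ Nat.card (AutM M.1) with hE
  have hEcard : Nat.card {x : MapClass p q m // ∃ M : MapOn p q (Fin (2 * m)),
      Quotient.mk (mapSetoid p q _) M = x ∧ TripTrans M.1 ∧ B ^ B ≤ Nat.card (AutM M.1)} =
      E.card := by
    rw [Nat.card_eq_fintype_card, Fintype.card_subtype]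
  rw [hEcard]
  have hsub : E ⊆ (Finset.Icc B (2 * m)).biUnion S₁ ∪ (Finset.Icc B (B ^ 2)).biUnion
      (fun n => (Finset.univ : Finset (Group (Fin n))).biUnion (S₂ n)) := by
    intro x hx
    rw [hE, Finset.mem_filter] at hx
    rw [Finset.mem_union, Finset.mem_biUnion, Finset.mem_biUnion]
    rcases Enc_big hB hx.2 with ⟨l, hl, hBl, hxl⟩ | ⟨n, hn1, hn2, G, hG⟩
    · left
      have : NeZero l := ⟨hl.ne_zero⟩
      have h1 := Enc_card_le hm hxl
      have h2 : Nat.card (Multiplicative (ZMod l)) = l := Nat.card_zmod l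
      rw [h2] at h1
      exact ⟨l, Finset.mem_Icc.mpr ⟨hBl, h1⟩, Finset.mem_filter.mpr ⟨Finset.mem_univ _, hxl⟩⟩
    · right
      refine ⟨n, Finset.mem_Icc.mpr ⟨hn1, hn2⟩, ?_⟩
      rw [Finset.mem_biUnion]
      exact ⟨G, Finset.mem_univ _, Finset.mem_filter.mpr ⟨Finset.mem_univ _, hG⟩⟩
  have hc1 : ((Finset.Icc B (2 * m)).biUnion S₁).card ≤ 2 * m * X := by
    refine (Finset.card_biUnion_le_card_mul _ _ X fun l hl => ?_).trans
      (Nat.mul_le_mul_right _ ?_)
    · have hl1 := (Finset.mem_Icc.mp hl).1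
      have : NeZero l := ⟨by omega⟩
      have h2 : Nat.card (Multiplicative (ZMod l)) = l := Nat.card_zmod l
      have h3 := Enc_le (p := p) (q := q) hm hB (Multiplicative (ZMod l)) (by rw [h2]; exact hl1)
      rw [Nat.card_eq_fintype_card, Fintype.card_subtype] at h3
      exact h3
    · rw [Nat.card_Icc]
      omega
  have hc2 : ((Finset.Icc B (B ^ 2)).biUnion
      (fun n => (Finset.univ : Finset (Group (Fin n))).biUnion (S₂ n))).card ≤
      (∑ n ∈ Finset.Icc B (B ^ 2), Fintype.card (Group (Fin n))) * X := by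
    refine Finset.card_biUnion_le.trans ?_
    rw [Finset.sum_mul]
    refine Finset.sum_le_sum fun n hn => ?_
    have hn1 := (Finset.mem_Icc.mp hn).1
    rw [← Finset.card_univ]
    refine Finset.card_biUnion_le_card_mul _ _ X fun G _ => ?_
    have h2 : Nat.card (Fin n) = n := by
      rw [Nat.card_eq_fintype_card, Fintype.card_fin]
    have h3 := @Enc_le p q m B hm hB (Fin n) G _ (by rw [h2]; exact hn1)
    rw [Nat.card_eq_fintype_card, Fintype.card_subtype] at h3
    exact h3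
  calc E.card ≤ ((Finset.Icc B (2 * m)).biUnion S₁ ∪ (Finset.Icc B (B ^ 2)).biUnion
      (fun n => (Finset.univ : Finset (Group (Fin n))).biUnion (S₂ n))).card :=
        Finset.card_le_card hsub
    _ ≤ 2 * m * X + (∑ n ∈ Finset.Icc B (B ^ 2), Fintype.card (Group (Fin n))) * X :=
        (Finset.card_union_le _ _).trans (Nat.add_le_add hc1 hc2)
    _ = ((∑ n ∈ Finset.Icc B (B ^ 2), Fintype.card (Group (Fin n))) + 2 * m) * X := by ring

end MPbcd198.A
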