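import Pool.Agent.Lib.MP_bcd198_co.A.Base

/-!
# JOB A/Growth: lower bound of `g(m)`

For `m` divisible by `p`, `q`, `2` (then `m / r` is exact for `r = p, q, 2`):
`log g(m) = ∑_{r = p,q,2} (m log 2 + log m! - (m/r) log (2r) - log (m/r)!) - log (2m)!`. With `n log n - n ≤ log n! ≤ n log n` (for `n ≥ 1`; Mathlib:
`Real.add_pow_le_pow_mul_pow_of_add_eq_one`... simplest: `n! ≤ n^n` (`Nat.factorial_le_pow`... `Nat.factorial_lt_self_pow`) and `n^n ≤ n! * exp n`
(`Real.exp` power series: `x^n / n! ≤ exp x` for `x = n`, `Real.pow_div_factorial_le_exp`)):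
`log g(m) ≥ 3 (m log m - m) - ∑_r ((m/r) log (2r) + (m/r) log m) - 2 m log (2m) ≥ kap m log m - C₁ m`, as `3 - (1/2 + 1/p + 1/q) - 2 = kap`.
RHS: `log ((C + 2m) (2m)^(6m/B)) ≤ log (C + 2m) + (6/B) m log (2m)` and `6/B < kap/4`. Since `m log m` dominates `m` and `log (C + 2m)`, the inequality holds for large `m`.
-/

set_option autoImplicit false

namespace MPbcd198.A

private theorem growth_sNum_pos {r : ℕ} (hr : 0 < r) (m : ℕ) : 0 < sNum r m := by
  unfold sNum
  have h : (0 : ℝ) < (r : ℝ) := by exact_mod_cast hr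
  positivity

theorem gg_pos {p q : ℕ} (hyp : Hyp p q) (m : ℕ) : 0 < gg p q m := by
  unfold gg
  have h1 := growth_sNum_pos (r := p) (by have := hyp.hp; omega) m
  have h2 := growth_sNum_pos (r := q) (by have := hyp.hq; omega) m
  have h3 := growth_sNum_pos (r := 2) (by omega) m
  positivity

private theorem growth_fac_ge {m : ℕ} (hm : 0 < m) :
    (m : ℝ) * Real.log m - m ≤ Real.log (m.factorial : ℝ) := by
  have hm' : (0 : ℝ) < (m : ℝ) := by exact_mod_cast hm
  have hf : (0 : ℝ) < (m.factorial : ℝ) := by positivity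
  have h1 := Real.pow_div_factorial_le_exp (m : ℝ) hm'.le m
  rw [div_le_iff₀ hf] at h1
  have h2 := Real.log_le_log (by positivity) h1
  rw [Real.log_pow, Real.log_mul (Real.exp_pos _).ne' hf.ne', Real.log_exp] at h2
  linarith

private theorem growth_fac_le {m : ℕ} (hm : 0 < m) :
    Real.log (m.factorial : ℝ) ≤ (m : ℝ) * Real.log m := by
  have hm' : (0 : ℝ) < (m : ℝ) := by exact_mod_cast hm
  have h1 : (m.factorial : ℝ) ≤ (m : ℝ) ^ m := by exact_mod_cast Nat.factorial_le_pow m
  have h2 := Real.log_le_log (by positivity) h1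
  rwa [Real.log_pow] at h2

private theorem growth_sNum {r m : ℕ} (hr : 0 < r) (hm : 0 < m) (hd : r ∣ m) :
    (1 - 1 / (r : ℝ)) * (m * Real.log m) - m ≤ Real.log (sNum r m) := by
  obtain ⟨k, rfl⟩ := hd
  have hk : 0 < k := Nat.pos_of_mul_pos_left hm
  have hk' : (0 : ℝ) < (k : ℝ) := by exact_mod_cast hk
  have hr' : (0 : ℝ) < (r : ℝ) := by exact_mod_cast hr
  have hr1 : (1 : ℝ) ≤ (r : ℝ) := by exact_mod_cast hr
  have h1 := growth_fac_ge hm
  have h2 := growth_fac_le hk
  have hdiv : r * k / r = k := Nat.mul_div_cancel_left k hr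
  unfold sNum
  rw [hdiv, Real.log_div (by positivity) (by positivity), Real.log_mul (by positivity)
    (by positivity), Real.log_mul (by positivity) (by positivity), Real.log_pow, Real.log_pow,
    Real.log_mul (by norm_num) hr'.ne']
  have h3 : Real.log ((r * k : ℕ) : ℝ) = Real.log r + Real.log k := by
    push_cast
    rw [Real.log_mul hr'.ne' hk'.ne']
  have hl2 : 0 ≤ Real.log 2 := Real.log_nonneg (by norm_num)
  have hlr : 0 ≤ Real.log r := Real.log_nonneg hr1
  rw [h3] at h1 ⊢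
  push_cast at h1 ⊢
  have h4 : (1 - 1 / (r : ℝ)) * (r * k * (Real.log r + Real.log k)) =
      r * k * (Real.log r + Real.log k) - k * (Real.log r + Real.log k) := by
    field_simp
  rw [h4]
  have h5 : (k : ℝ) * Real.log 2 ≤ r * k * Real.log 2 := by
    have : (k : ℝ) * Real.log 2 ≤ r * (k * Real.log 2) := by
      have h6 : 0 ≤ (k : ℝ) * Real.log 2 := by positivity
      nlinarith
    linarith
  linarith

theorem growth {p q : ℕ} (hyp : Hyp p q) (B C : ℕ) (hB : 24 / kap p q < (B : ℝ)) :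
    ∃ m₀ : ℕ, ∀ m : ℕ, m₀ ≤ m → Ok p q m →
      (((C + 2 * m) * (2 * m) ^ (6 * m / B) : ℕ) : ℝ) ≤ gg p q m := by
  have hkap := kap_pos hyp
  have hp := hyp.hp
  have hq := hyp.hq
  have hp' : (0 : ℝ) < (p : ℝ) := by exact_mod_cast (by omega : 0 < p)
  have hq' : (0 : ℝ) < (q : ℝ) := by exact_mod_cast (by omega : 0 < q)
  have hkap1 : kap p q ≤ 1 := by
    unfold kap
    have h1 : 0 < 1 / (p : ℝ) := by positivity
    have h2 : 0 < 1 / (q : ℝ) := by positivity
    linarith
  have hB0 : (0 : ℝ) < (B : ℝ) := lt_trans (by positivity) hB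
  have hB1 : 6 / (B : ℝ) ≤ kap p q / 4 := by
    rw [div_lt_iff₀ hkap] at hB
    rw [div_le_div_iff₀ hB0 (by norm_num)]
    linarith
  obtain ⟨n₁, hn₁⟩ := exists_nat_gt (Real.exp (12 / kap p q))
  refine ⟨C + n₁ + 1, ?_⟩
  rintro m hm ⟨hmp, hmq, hm2⟩
  have hm0 : 0 < m := by omega
  have hm1 : (1 : ℝ) ≤ (m : ℝ) := by exact_mod_cast hm0
  have hmpos : (0 : ℝ) < (m : ℝ) := by linarith
  have hmC : (C : ℝ) ≤ m := by exact_mod_cast (by omega : C ≤ m)
  have hmn : (n₁ : ℝ) ≤ m := by exact_mod_cast (by omega : n₁ ≤ m)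
  have hL : 12 / kap p q ≤ Real.log m := by
    rw [Real.le_log_iff_exp_le hmpos]
    linarith
  have hL' : 12 ≤ kap p q * Real.log m := by
    rw [div_le_iff₀ hkap] at hL
    linarith
  have hL0 : 0 ≤ Real.log m := Real.log_nonneg hm1
  have hl2 : 0 ≤ Real.log 2 := Real.log_nonneg (by norm_num)
  have hl2' : Real.log 2 ≤ 1 := by
    have := Real.log_le_sub_one_of_pos (show (0 : ℝ) < 2 by norm_num)
    linarith
  -- lower bound
  have s1 := growth_sNum (r := p) (by omega) hm0 hmp
  have s2 := growth_sNum (r := q) (by omega) hm0 hmq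
  have s3 := growth_sNum (r := 2) (by omega) hm0 hm2
  have p1 := growth_sNum_pos (r := p) (by omega) m
  have p2 := growth_sNum_pos (r := q) (by omega) m
  have p3 := growth_sNum_pos (r := 2) (by omega) m
  have f1 := growth_fac_le (m := 2 * m) (by omega)
  have hgg : Real.log (gg p q m) = Real.log (sNum p m) + Real.log (sNum q m) +
      Real.log (sNum 2 m) - Real.log ((2 * m).factorial : ℝ) := by
    unfold gg
    rw [Real.log_div (by positivity) (by positivity), Real.log_mul (by positivity) p3.ne',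
      Real.log_mul p1.ne' p2.ne']
  have hlog2m : Real.log ((2 * m : ℕ) : ℝ) = Real.log 2 + Real.log m := by
    push_cast
    rw [Real.log_mul (by norm_num) hmpos.ne']
  rw [hlog2m] at f1
  push_cast at f1 s3
  have hlow : kap p q * (m * Real.log m) - 5 * m ≤ Real.log (gg p q m) := by
    rw [hgg]
    unfold kap
    have h1 : (m : ℝ) * Real.log 2 ≤ m := by nlinarith
    nlinarith
  -- upper bound
  have hpos : (0 : ℝ) < (((C + 2 * m) * (2 * m) ^ (6 * m / B) : ℕ) : ℝ) := by
    have : 0 < (C + 2 * m) * (2 * m) ^ (6 * m / B) := by positivity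
    exact_mod_cast this
  rw [← Real.log_le_log_iff hpos (gg_pos hyp m)]
  refine le_trans ?_ hlow
  have hup : Real.log (((C + 2 * m) * (2 * m) ^ (6 * m / B) : ℕ) : ℝ) =
      Real.log ((C : ℝ) + 2 * m) + ((6 * m / B : ℕ) : ℝ) * (Real.log 2 + Real.log m) := by
    rw [Nat.cast_mul, Nat.cast_pow, Real.log_mul (by positivity) (by positivity), Real.log_pow,
      hlog2m]
    push_cast
    rfl
  rw [hup]
  have h1 : Real.log ((C : ℝ) + 2 * m) ≤ C + 2 * m := by
    have := Real.log_le_sub_one_of_pos (show (0 : ℝ) < (C : ℝ) + 2 * m by positivity)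
    linarith
  have h2 : ((6 * m / B : ℕ) : ℝ) ≤ kap p q / 4 * m := by
    have h3 : ((6 * m / B : ℕ) : ℝ) ≤ ((6 * m : ℕ) : ℝ) / (B : ℝ) := Nat.cast_div_le
    push_cast at h3
    have h4 : 6 * (m : ℝ) / B = 6 / (B : ℝ) * m := by ring
    rw [h4] at h3
    exact le_trans h3 (by nlinarith)
  have h3 : ((6 * m / B : ℕ) : ℝ) * (Real.log 2 + Real.log m) ≤
      kap p q / 4 * m * (Real.log 2 + Real.log m) :=
    mul_le_mul_of_nonneg_right h2 (by positivity)
  have h4 : kap p q / 4 * m * (Real.log 2 + Real.log m) ≤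
      m / 4 + (kap p q * Real.log m) * m / 4 := by
    have h5 : kap p q * Real.log 2 ≤ 1 := by nlinarith
    have h6 : kap p q / 4 * m * (Real.log 2 + Real.log m) =
      (kap p q * Real.log 2) * m / 4 + (kap p q * Real.log m) * m / 4 := by ring
    rw [h6]
    nlinarith
  have h5 : kap p q * (m * Real.log m) = (kap p q * Real.log m) * m := by ring
  rw [h5]
  have h6 : 12 * (m : ℝ) ≤ (kap p q * Real.log m) * m := by nlinarith
  linarith

end MPbcd198.A
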