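import Pool.Agent.Lib.MP_bcd198_co.A.Growth

/-!
# JOB A/Ratio: the convolution `∑ g(m₁) g(m - m₁)` is small

Let `m = m₁ + m₂`, `m₁`, `m₂` admissible (`Ok`).
* `choose_pow_le` (Vandermonde): `binom(k, k₁)^r ≤ binom(r k, r k₁)`: by induction on `r`: `binom(n, i) binom(k, j) ≤ binom(n + k, i + j)` (`Nat.add_choose_eq`, one term of
  the sum).
* `choose_two_le`: `binom(2m, 2m₁) = binom(m, m₁)^2 cb(m) / (cb(m₁) cb(m₂))`, `cb n = Nat.centralBinom n = (2n)!/n!^2`; `cb (n+1) ≤ 4 cb n` (`Nat.succ_mul_centralBinom_succ`), so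
  `cb m ≤ 4^{m₁} cb m₂`; `4^{m₁} ≤ (2m₁ + 1) cb m₁` (`Nat.four_pow_le_two_mul_self_mul_centralBinom` / `..._two_mul_add_one_mul_central_binom`).
* `ratio_le`: `g(m₁) g(m₂) / g(m) = binom(2m, 2m₁) ∏_{r = p,q,2} binom(m/r, m₁/r) / binom(m, m₁)^3` (directly from the definition of `sNum`: the powers of
  `2` and `2r` cancel because `m/r = m₁/r + m₂/r`) `≤ (2m₁ + 1) binom(m, m₁)^(2 + 1/2 + 1/p + 1/q - 3) = (2m₁ + 1) binom(m, m₁)^(-kap)`.
* `conv_le`: `kap m₁ = m₁/2 - m₁/p - m₁/q` is a positive integer for admissible `m₁ ≥ 1`, so `kap m₁ ≥ 1`. For `1 ≤ m₁ ≤ m/2`: `binom(m, m₁) ≥ (m/m₁)^{m₁}` (`Nat.pow_le_choose`-type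
  lemma; or `∏_{i<m₁} (m-i)/(m₁-i)`), so `binom(m, m₁)^(-kap) ≤ (m₁/m)^(kap m₁) ≤ (m₁/m) (1/2)^(kap m₁ - 1)`. So the sum is at most
  `g(m) (1/m) ∑_{m₁ ≥ 1} (2m₁ + 1) m₁ 2^(1 - kap m₁)`, a convergent series (`summable_pow_mul_geometric_of_norm_lt_one`).
-/

set_option autoImplicit false

namespace MPbcd198.A

theorem choose_mul_le (n k i j : ℕ) : n.choose i * k.choose j ≤ (n + k).choose (i + j) := by
  rw [Nat.add_choose_eq]
  exact Finset.single_le_sum (f := fun ij : ℕ × ℕ => n.choose ij.1 * k.choose ij.2)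
    (fun _ _ => Nat.zero_le _) (Finset.HasAntidiagonal.mem_antidiagonal.mpr rfl : (i, j) ∈ _)

theorem choose_pow_le (r k k₁ : ℕ) : (k.choose k₁) ^ r ≤ (r * k).choose (r * k₁) := by
  induction r with
  | zero => simp
  | succ r ih =>
    rw [pow_succ, add_mul, add_mul, one_mul, one_mul]
    exact (Nat.mul_le_mul_right _ ih).trans (choose_mul_le _ _ _ _)

theorem cb_le (m₁ m₂ : ℕ) : Nat.centralBinom (m₁ + m₂) ≤ 4 ^ m₁ * Nat.centralBinom m₂ := by
  induction m₁ with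
  | zero => simp
  | succ n ih =>
    have h1 := Nat.succ_mul_centralBinom_succ (n + m₂)
    have h2 : Nat.centralBinom (n + m₂ + 1) ≤ 4 * Nat.centralBinom (n + m₂) := by
      have h3 : (n + m₂ + 1) * Nat.centralBinom (n + m₂ + 1) ≤
          (n + m₂ + 1) * (4 * Nat.centralBinom (n + m₂)) := by
        rw [h1]
        nlinarith [Nat.zero_le (Nat.centralBinom (n + m₂))]
      exact Nat.le_of_mul_le_mul_left h3 (by omega)
    calc Nat.centralBinom (n + 1 + m₂) = Nat.centralBinom (n + m₂ + 1) := by ring_nf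
      _ ≤ 4 * Nat.centralBinom (n + m₂) := h2
      _ ≤ 4 * (4 ^ n * Nat.centralBinom m₂) := Nat.mul_le_mul_left _ ih
      _ = 4 ^ (n + 1) * Nat.centralBinom m₂ := by ring

theorem choose_two_le (m₁ m₂ : ℕ) :
    (2 * (m₁ + m₂)).choose (2 * m₁) ≤ (2 * m₁ + 1) * ((m₁ + m₂).choose m₁) ^ 2 := by
  have hA : ∀ n : ℕ, Nat.centralBinom n * n.factorial ^ 2 = (2 * n).factorial := by
    intro n
    have := Nat.choose_mul_factorial_mul_factorial (n := 2 * n) (k := n) (by omega)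
    rw [Nat.centralBinom_eq_two_mul_choose]
    have h2 : 2 * n - n = n := by omega
    rw [h2] at this
    rw [← this]
    ring
  have hB := Nat.choose_mul_factorial_mul_factorial (n := m₁ + m₂) (k := m₁) (by omega)
  have hC := Nat.choose_mul_factorial_mul_factorial (n := 2 * (m₁ + m₂)) (k := 2 * m₁) (by omega)
  have e1 : m₁ + m₂ - m₁ = m₂ := by omega
  have e2 : 2 * (m₁ + m₂) - 2 * m₁ = 2 * m₂ := by omega
  rw [e1] at hB
  rw [e2] at hC
  have h4 := Nat.four_pow_le_two_mul_self_mul_centralBinom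
  have h5 : 4 ^ m₁ ≤ (2 * m₁ + 1) * Nat.centralBinom m₁ := by
    rcases Nat.eq_zero_or_pos m₁ with rfl | h
    · simp
    · have := h4 m₁ h
      nlinarith [Nat.zero_le (Nat.centralBinom m₁)]
  have h6 := cb_le m₁ m₂
  -- identity
  have key : (2 * (m₁ + m₂)).choose (2 * m₁) * (Nat.centralBinom m₁ * Nat.centralBinom m₂) =
      ((m₁ + m₂).choose m₁) ^ 2 * Nat.centralBinom (m₁ + m₂) := by
    have hpos : 0 < (m₁.factorial) ^ 2 * (m₂.factorial) ^ 2 := by positivity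
    apply Nat.eq_of_mul_eq_mul_right hpos
    calc (2 * (m₁ + m₂)).choose (2 * m₁) * (Nat.centralBinom m₁ * Nat.centralBinom m₂) *
          (m₁.factorial ^ 2 * m₂.factorial ^ 2)
        = (2 * (m₁ + m₂)).choose (2 * m₁) * (Nat.centralBinom m₁ * m₁.factorial ^ 2) *
            (Nat.centralBinom m₂ * m₂.factorial ^ 2) := by ring
      _ = (2 * (m₁ + m₂)).choose (2 * m₁) * (2 * m₁).factorial * (2 * m₂).factorial := by
            rw [hA, hA]
      _ = (2 * (m₁ + m₂)).factorial := hC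
      _ = Nat.centralBinom (m₁ + m₂) * (m₁ + m₂).factorial ^ 2 := (hA _).symm
      _ = Nat.centralBinom (m₁ + m₂) *
            ((m₁ + m₂).choose m₁ * m₁.factorial * m₂.factorial) ^ 2 := by rw [hB]
      _ = _ := by ring
  have hp1 : 0 < Nat.centralBinom m₁ := Nat.centralBinom_pos _
  have hp2 : 0 < Nat.centralBinom m₂ := Nat.centralBinom_pos _
  have h7 : (2 * (m₁ + m₂)).choose (2 * m₁) * (Nat.centralBinom m₁ * Nat.centralBinom m₂) ≤
      ((2 * m₁ + 1) * ((m₁ + m₂).choose m₁) ^ 2) * (Nat.centralBinom m₁ * Nat.centralBinom m₂) := by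
    rw [key]
    calc ((m₁ + m₂).choose m₁) ^ 2 * Nat.centralBinom (m₁ + m₂)
        ≤ ((m₁ + m₂).choose m₁) ^ 2 * (4 ^ m₁ * Nat.centralBinom m₂) :=
          Nat.mul_le_mul_left _ h6
      _ ≤ ((m₁ + m₂).choose m₁) ^ 2 *
          (((2 * m₁ + 1) * Nat.centralBinom m₁) * Nat.centralBinom m₂) :=
          Nat.mul_le_mul_left _ (Nat.mul_le_mul_right _ h5)
      _ = _ := by ring
  exact Nat.le_of_mul_le_mul_right h7 (Nat.mul_pos hp1 hp2)


/-- `s_r(m₁) s_r(m₂) binom(m, m₁) = binom(m/r, m₁/r) s_r(m)` -/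
theorem sNum_mul (r k₁ k₂ : ℕ) (hr : 1 ≤ r) :
    sNum r (r * k₁) * sNum r (r * k₂) * (((r * k₁ + r * k₂).choose (r * k₁) : ℕ) : ℝ) =
      (((k₁ + k₂).choose k₁ : ℕ) : ℝ) * sNum r (r * k₁ + r * k₂) := by
  have h1 := Nat.choose_mul_factorial_mul_factorial (n := r * k₁ + r * k₂) (k := r * k₁) (by omega)
  have h2 := Nat.choose_mul_factorial_mul_factorial (n := k₁ + k₂) (k := k₁) (by omega)
  have e1 : r * k₁ + r * k₂ - r * k₁ = r * k₂ := by omega
  have e2 : k₁ + k₂ - k₁ = k₂ := by omega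
  rw [e1] at h1
  rw [e2] at h2
  have h1' : (((r * k₁ + r * k₂).choose (r * k₁) : ℕ) : ℝ) * ((r * k₁).factorial : ℝ) *
      ((r * k₂).factorial : ℝ) = ((r * k₁ + r * k₂).factorial : ℝ) := by exact_mod_cast h1
  have h2' : (((k₁ + k₂).choose k₁ : ℕ) : ℝ) * (k₁.factorial : ℝ) * (k₂.factorial : ℝ) =
      ((k₁ + k₂).factorial : ℝ) := by exact_mod_cast h2
  have hr0 : 0 < r := by omega
  have d1 : r * k₁ / r = k₁ := Nat.mul_div_cancel_left _ hr0
  have d2 : r * k₂ / r = k₂ := Nat.mul_div_cancel_left _ hr0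
  have d3 : (r * k₁ + r * k₂) / r = k₁ + k₂ := by
    rw [← Nat.mul_add]
    exact Nat.mul_div_cancel_left _ hr0
  unfold sNum
  rw [d1, d2, d3, ← h1', ← h2']
  have f1 : (0 : ℝ) < (k₁.factorial : ℝ) := by positivity
  have f2 : (0 : ℝ) < (k₂.factorial : ℝ) := by positivity
  have f3 : (0 : ℝ) < (r : ℝ) := by exact_mod_cast hr0
  have f4 : (0 : ℝ) < (((k₁ + k₂).choose k₁ : ℕ) : ℝ) := by
    exact_mod_cast Nat.choose_pos (by omega)
  rw [pow_add, pow_add]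
  field_simp


theorem sNum_le (r m₁ m₂ : ℕ) (hr : 1 ≤ r) (h₁ : r ∣ m₁) (h₂ : r ∣ m₂) :
    sNum r m₁ * sNum r m₂ ≤
      (((m₁ + m₂).choose m₁ : ℕ) : ℝ) ^ (1 / (r : ℝ) - 1) * sNum r (m₁ + m₂) := by
  obtain ⟨k₁, rfl⟩ := h₁
  obtain ⟨k₂, rfl⟩ := h₂
  have h := sNum_mul r k₁ k₂ hr
  set X : ℝ := (((r * k₁ + r * k₂).choose (r * k₁) : ℕ) : ℝ) with hX
  have hX1 : 0 < X := by
    rw [hX]
    exact_mod_cast Nat.choose_pos (by omega)
  have hr0 : (0 : ℝ) < r := by exact_mod_cast hr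
  have hY : (((k₁ + k₂).choose k₁ : ℕ) : ℝ) ≤ X ^ (1 / (r : ℝ)) := by
    have h1 : (((k₁ + k₂).choose k₁ : ℕ) : ℝ) ^ r ≤ X := by
      rw [hX]
      have := choose_pow_le r (k₁ + k₂) k₁
      rw [Nat.mul_add] at this
      exact_mod_cast this
    have h2 : (((k₁ + k₂).choose k₁ : ℕ) : ℝ) =
        ((((k₁ + k₂).choose k₁ : ℕ) : ℝ) ^ r) ^ (1 / (r : ℝ)) := by
      rw [one_div, Real.pow_rpow_inv_natCast (Nat.cast_nonneg _) (by omega)]
    rw [h2]
    exact Real.rpow_le_rpow (by positivity) h1 (by positivity)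
  have hs : 0 < sNum r (r * k₁ + r * k₂) := by
    unfold sNum
    positivity
  have h3 : sNum r (r * k₁) * sNum r (r * k₂) * X ≤
      X ^ (1 / (r : ℝ)) * sNum r (r * k₁ + r * k₂) := by
    rw [h]
    exact mul_le_mul_of_nonneg_right hY hs.le
  rw [Real.rpow_sub hX1, Real.rpow_one, div_mul_eq_mul_div, le_div_iff₀ hX1]
  exact h3

theorem ratio_le {p q : ℕ} (hyp : Hyp p q) (m₁ m₂ : ℕ) (h₁ : Ok p q m₁) (h₂ : Ok p q m₂) :
    gg p q m₁ * gg p q m₂ ≤
      (2 * m₁ + 1) * (((m₁ + m₂).choose m₁ : ℕ) : ℝ) ^ (-kap p q) * gg p q (m₁ + m₂) := by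
  have hp := hyp.hp
  have hq := hyp.hq
  have a1 := sNum_le p m₁ m₂ (by omega) h₁.1 h₂.1
  have a2 := sNum_le q m₁ m₂ (by omega) h₁.2.1 h₂.2.1
  have a3 := sNum_le 2 m₁ m₂ (by omega) h₁.2.2 h₂.2.2
  have a4 := choose_two_le m₁ m₂
  have hB := Nat.choose_mul_factorial_mul_factorial (n := 2 * (m₁ + m₂)) (k := 2 * m₁) (by omega)
  have e2 : 2 * (m₁ + m₂) - 2 * m₁ = 2 * m₂ := by omega
  rw [e2] at hB
  set X : ℝ := (((m₁ + m₂).choose m₁ : ℕ) : ℝ) with hX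
  have hX1 : 0 < X := by
    rw [hX]
    exact_mod_cast Nat.choose_pos (by omega)
  have a4' : (((2 * (m₁ + m₂)).choose (2 * m₁) : ℕ) : ℝ) ≤ (2 * m₁ + 1) * X ^ (2 : ℝ) := by
    rw [hX, Real.rpow_two]
    exact_mod_cast a4
  have hB' : (((2 * (m₁ + m₂)).choose (2 * m₁) : ℕ) : ℝ) * ((2 * m₁).factorial : ℝ) *
      ((2 * m₂).factorial : ℝ) = ((2 * (m₁ + m₂)).factorial : ℝ) := by exact_mod_cast hB
  have hpos : ∀ r : ℕ, 1 ≤ r → ∀ m, 0 < sNum r m := by
    intro r hr m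
    unfold sNum
    have : (0 : ℝ) < r := by exact_mod_cast hr
    positivity
  have p1 := hpos p (by omega)
  have p2 := hpos q (by omega)
  have p3 := hpos 2 (by omega)
  have f1 : (0 : ℝ) < ((2 * m₁).factorial : ℝ) := by positivity
  have f2 : (0 : ℝ) < ((2 * m₂).factorial : ℝ) := by positivity
  have f3 : (0 : ℝ) < ((2 * (m₁ + m₂)).factorial : ℝ) := by positivity
  have g1 : gg p q m₁ * gg p q m₂ =
      (sNum p m₁ * sNum p m₂) * (sNum q m₁ * sNum q m₂) * (sNum 2 m₁ * sNum 2 m₂) *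
        ((((2 * (m₁ + m₂)).choose (2 * m₁) : ℕ) : ℝ) / ((2 * (m₁ + m₂)).factorial : ℝ)) := by
    unfold gg
    rw [← hB']
    have f4 : (0 : ℝ) < (((2 * (m₁ + m₂)).choose (2 * m₁) : ℕ) : ℝ) := by
      exact_mod_cast Nat.choose_pos (by omega)
    field_simp
  have hexp : X ^ (-kap p q) = X ^ (1 / (p : ℝ) - 1) * X ^ (1 / (q : ℝ) - 1) *
      X ^ (1 / ((2 : ℕ) : ℝ) - 1) * X ^ (2 : ℝ) := by
    rw [← Real.rpow_add hX1, ← Real.rpow_add hX1, ← Real.rpow_add hX1]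
    congr 1
    unfold kap
    push_cast
    ring
  rw [g1, hexp]
  calc _ ≤ (X ^ (1 / (p : ℝ) - 1) * sNum p (m₁ + m₂)) * (X ^ (1 / (q : ℝ) - 1) * sNum q (m₁ + m₂)) *
        (X ^ (1 / ((2 : ℕ) : ℝ) - 1) * sNum 2 (m₁ + m₂)) *
        (((2 * m₁ + 1) * X ^ (2 : ℝ)) / ((2 * (m₁ + m₂)).factorial : ℝ)) := by
        have q1 := (p1 m₁).le
        have q2 := (p1 m₂).le
        have q3 := (p2 m₁).le
        have q4 := (p2 m₂).le
        have q5 := (p3 m₁).le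
        have q6 := (p3 m₂).le
        have q7 := (p1 (m₁ + m₂)).le
        have q8 := (p2 (m₁ + m₂)).le
        have q9 := (p3 (m₁ + m₂)).le
        gcongr
    _ = _ := by
        unfold gg
        ring


theorem pow_le_choose' (k : ℕ) : ∀ n : ℕ, k ≤ n → ((n : ℝ) / k) ^ k ≤ ((n.choose k : ℕ) : ℝ) := by
  induction k with
  | zero => intro n _; simp
  | succ k ih =>
    intro n hn
    obtain ⟨n, rfl⟩ : ∃ n', n = n' + 1 := ⟨n - 1, by omega⟩
    have h1 := Nat.add_one_mul_choose_eq n k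
    have h1' : ((n : ℝ) + 1) * ((n.choose k : ℕ) : ℝ) =
        (((n + 1).choose (k + 1) : ℕ) : ℝ) * ((k : ℝ) + 1) := by exact_mod_cast h1
    have hk : (0 : ℝ) < (k : ℝ) + 1 := by positivity
    have h2 : (((n + 1).choose (k + 1) : ℕ) : ℝ) =
        ((n : ℝ) + 1) / ((k : ℝ) + 1) * ((n.choose k : ℕ) : ℝ) := by
      field_simp
      linarith
    rw [h2, pow_succ, mul_comm]
    push_cast
    apply mul_le_mul_of_nonneg_left _ (by positivity)
    refine le_trans ?_ (ih n (by omega))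
    rcases Nat.eq_zero_or_pos k with rfl | hk0
    · simp
    · apply pow_le_pow_left₀ (by positivity)
      have hk1 : (0 : ℝ) < k := by exact_mod_cast hk0
      rw [div_le_div_iff₀ hk hk1]
      have : (k : ℝ) ≤ n := by exact_mod_cast (by omega : k ≤ n)
      nlinarith

theorem kap_mul_ge {p q : ℕ} (hyp : Hyp p q) (m : ℕ) (hm : 1 ≤ m) (h : Ok p q m) :
    1 ≤ kap p q * m := by
  have hk := kap_pos hyp
  have hp := hyp.hp
  have hq := hyp.hq
  obtain ⟨⟨x, hx⟩, ⟨y, hy⟩, ⟨z, hz⟩⟩ := h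
  have hp0 : (0 : ℝ) < p := by exact_mod_cast (by omega : 0 < p)
  have hq0 : (0 : ℝ) < q := by exact_mod_cast (by omega : 0 < q)
  have hx' : (m : ℝ) = p * x := by exact_mod_cast hx
  have hy' : (m : ℝ) = q * y := by exact_mod_cast hy
  have hz' : (m : ℝ) = 2 * z := by exact_mod_cast hz
  have e : kap p q * m = ((z : ℤ) - x - y : ℤ) := by
    unfold kap
    push_cast
    have e1 : 1 / (p : ℝ) * m = x := by rw [hx']; field_simp
    have e2 : 1 / (q : ℝ) * m = y := by rw [hy']; field_simp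
    have e3 : 1 / (2 : ℝ) * m = z := by rw [hz']; ring
    rw [sub_mul, sub_mul, e1, e2, e3]
  have hm0 : (0 : ℝ) < m := by exact_mod_cast hm
  have hpos : 0 < kap p q * m := mul_pos hk hm0
  rw [e] at hpos ⊢
  have : (0 : ℤ) < (z : ℤ) - x - y := by exact_mod_cast hpos
  exact_mod_cast this

open Classical in
theorem conv_le {p q : ℕ} (hyp : Hyp p q) : ∃ C : ℝ, 0 < C ∧ ∀ m : ℕ, 1 ≤ m → Ok p q m →
    ∑ m₁ ∈ (Finset.Icc 1 (m / 2)).filter (fun m₁ => Ok p q m₁), gg p q m₁ * gg p q (m - m₁) ≤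
      C / m * gg p q m := by
  have hk := kap_pos hyp
  set ρ : ℝ := (2 : ℝ) ^ (-kap p q) with hρ
  have hρ0 : 0 < ρ := by positivity
  have hρ1 : ρ < 1 := Real.rpow_lt_one_of_one_lt_of_neg (by norm_num) (by linarith)
  have hs : Summable (fun n : ℕ => (2 * (2 * (n : ℝ) + 1) * n) * ρ ^ n) := by
    have h2 := summable_pow_mul_geometric_of_norm_lt_one (R := ℝ) 2 (r := ρ)
      (by rw [Real.norm_of_nonneg hρ0.le]; exact hρ1)
    have h1 := summable_pow_mul_geometric_of_norm_lt_one (R := ℝ) 1 (r := ρ)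
      (by rw [Real.norm_of_nonneg hρ0.le]; exact hρ1)
    refine ((h2.mul_left 4).add (h1.mul_left 2)).congr ?_
    intro n
    ring
  have hnn : ∀ n : ℕ, 0 ≤ (2 * (2 * (n : ℝ) + 1) * n) * ρ ^ n := fun n => by positivity
  refine ⟨∑' n : ℕ, (2 * (2 * (n : ℝ) + 1) * n) * ρ ^ n + 1, ?_, ?_⟩
  · have : 0 ≤ ∑' n : ℕ, (2 * (2 * (n : ℝ) + 1) * n) * ρ ^ n := tsum_nonneg hnn
    linarith
  · intro m hm hok
    have hm0 : (0 : ℝ) < m := by exact_mod_cast hm
    have hg := gg_pos hyp m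
    have hterm : ∀ m₁ ∈ (Finset.Icc 1 (m / 2)).filter (fun m₁ => Ok p q m₁),
        gg p q m₁ * gg p q (m - m₁) ≤
          ((2 * (2 * (m₁ : ℝ) + 1) * m₁) * ρ ^ m₁) * (1 / m * gg p q m) := by
      intro m₁ hm₁
      rw [Finset.mem_filter, Finset.mem_Icc] at hm₁
      obtain ⟨⟨h1, h2⟩, h3⟩ := hm₁
      have hle : m₁ ≤ m := by omega
      have hok2 : Ok p q (m - m₁) :=
        ⟨Nat.dvd_sub hok.1 h3.1, Nat.dvd_sub hok.2.1 h3.2.1, Nat.dvd_sub hok.2.2 h3.2.2⟩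
      have h4 := ratio_le hyp m₁ (m - m₁) h3 hok2
      have e1 : m₁ + (m - m₁) = m := by omega
      rw [e1] at h4
      have hm₁0 : (0 : ℝ) < m₁ := by exact_mod_cast h1
      have h5 := pow_le_choose' m₁ m hle
      set y : ℝ := (m : ℝ) / m₁ with hy
      have hy2 : 2 ≤ y := by
        rw [hy, le_div_iff₀ hm₁0]
        exact_mod_cast (by omega : 2 * m₁ ≤ m)
      have hy0 : 0 < y := by linarith
      have h6 : (((m.choose m₁ : ℕ) : ℝ)) ^ (-kap p q) ≤ (y ^ m₁) ^ (-kap p q) :=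
        Real.rpow_le_rpow_of_nonpos (by positivity) h5 (by linarith)
      have h7 : (y ^ m₁) ^ (-kap p q) = y ^ (-1 : ℝ) * y ^ (-(kap p q * m₁ - 1)) := by
        rw [← Real.rpow_natCast, ← Real.rpow_mul hy0.le, ← Real.rpow_add hy0]
        congr 1
        ring
      have h8 : y ^ (-(kap p q * m₁ - 1)) ≤ (2 : ℝ) ^ (-(kap p q * m₁ - 1)) :=
        Real.rpow_le_rpow_of_nonpos (by norm_num) hy2 (by
          have := kap_mul_ge hyp m₁ h1 h3
          linarith)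
      have h9 : (2 : ℝ) ^ (-(kap p q * m₁ - 1)) = 2 * ρ ^ m₁ := by
        rw [hρ, ← Real.rpow_natCast, ← Real.rpow_mul (by norm_num)]
        have : -(kap p q * (m₁ : ℝ) - 1) = 1 + -kap p q * m₁ := by ring
        rw [this, Real.rpow_add (by norm_num), Real.rpow_one]
      have h10 : y ^ (-1 : ℝ) = m₁ / m := by
        rw [Real.rpow_neg_one, hy, inv_div]
      have h11 : (((m.choose m₁ : ℕ) : ℝ)) ^ (-kap p q) ≤ (m₁ / m) * (2 * ρ ^ m₁) := by
        refine h6.trans ?_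
        rw [h7, h10]
        apply mul_le_mul_of_nonneg_left _ (by positivity)
        rw [← h9]
        exact h8
      calc gg p q m₁ * gg p q (m - m₁)
          ≤ (2 * m₁ + 1) * (((m.choose m₁ : ℕ) : ℝ)) ^ (-kap p q) * gg p q m := h4
        _ ≤ (2 * m₁ + 1) * ((m₁ / m) * (2 * ρ ^ m₁)) * gg p q m := by gcongr
        _ = _ := by ring
    calc ∑ m₁ ∈ (Finset.Icc 1 (m / 2)).filter (fun m₁ => Ok p q m₁), gg p q m₁ * gg p q (m - m₁)
        ≤ ∑ m₁ ∈ (Finset.Icc 1 (m / 2)).filter (fun m₁ => Ok p q m₁),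
          ((2 * (2 * (m₁ : ℝ) + 1) * m₁) * ρ ^ m₁) * (1 / m * gg p q m) :=
          Finset.sum_le_sum hterm
      _ = (∑ m₁ ∈ (Finset.Icc 1 (m / 2)).filter (fun m₁ => Ok p q m₁),
          ((2 * (2 * (m₁ : ℝ) + 1) * m₁) * ρ ^ m₁)) * (1 / m * gg p q m) := by
          rw [Finset.sum_mul]
      _ ≤ (∑' n : ℕ, (2 * (2 * (n : ℝ) + 1) * n) * ρ ^ n + 1) * (1 / m * gg p q m) := by
          apply mul_le_mul_of_nonneg_right _ (by positivity)
          have := hs.sum_le_tsum ((Finset.Icc 1 (m / 2)).filter (fun m₁ => Ok p q m₁))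
            (fun n _ => hnn n)
          linarith
      _ = _ := by ring

end MPbcd198.A
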