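import Pool.Agent.Lib.MP_bcd198_co.A.Enc
import Pool.Agent.Lib.MP_bcd198_co.A.Ratio
import Pool.Agent.Lib.MP_bcd198_co.A.Dec

/-!
# Stream A: main theorem
-/

set_option autoImplicit false

namespace MPbcd198.A

open Equiv

theorem tt_nonneg (p q m : ℕ) : 0 ≤ tt p q m := by
  unfold tt
  positivity

theorem tt_zero {p q m : ℕ} (hm : 0 < m) (h : ¬ Ok p q m) : tt p q m = 0 := by
  unfold tt
  rw [NMap_zero p q m hm h]
  simp

/-- finitely many `m`: `u ≤ (2m)! t` -/
theorem u_le_fac (p q m : ℕ) : (u p q m : ℝ) ≤ ((2 * m).factorial : ℝ) * tt p q m := by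
  unfold tt
  rw [mul_div_cancel₀]
  · exact_mod_cast u_le p q m
  · positivity

theorem main {p q : ℕ} (hyp : Hyp p q)
    (hN : ∀ ε : ℝ, 0 < ε → ∃ m₀ : ℕ, ∀ m : ℕ, m₀ ≤ m → p ∣ m → q ∣ m → 2 ∣ m →
      |(NMap p q m : ℝ) - sNum p m * sNum q m * sNum 2 m| ≤
        ε * (sNum p m * sNum q m * sNum 2 m)) :
    ∀ ε : ℝ, 0 < ε → ∃ m₀ : ℕ, ∀ m : ℕ, m₀ ≤ m →
      (Nat.card {x : MapClass p q m // ∃ M : MapOn p q (Fin (2 * m)),
        Quotient.mk (mapSetoid p q _) M = x ∧ ¬ TripTrans M.1} : ℝ) ≤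
          ε * ((NMap p q m : ℝ) / ((2 * m).factorial : ℝ)) := by
  classical
  have hkap := kap_pos hyp
  -- comparison of `tt` and `gg`
  obtain ⟨n₀, hn₀⟩ := hN (1 / 2) (by norm_num)
  have hS : ∀ m, sNum p m * sNum q m * sNum 2 m = gg p q m * ((2 * m).factorial : ℝ) := by
    intro m
    unfold gg
    rw [div_mul_cancel₀]
    positivity
  have hge : ∀ m, n₀ ≤ m → Ok p q m → gg p q m ≤ 2 * tt p q m := by
    intro m hm hok
    have h1 := hn₀ m hm hok.1 hok.2.1 hok.2.2
    rw [hS, abs_le] at h1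
    have hf : (0 : ℝ) < ((2 * m).factorial : ℝ) := by positivity
    unfold tt
    rw [← mul_div_assoc, le_div_iff₀ hf]
    linarith [h1.1]
  have hle' : ∀ m, n₀ ≤ m → Ok p q m → tt p q m ≤ 2 * gg p q m := by
    intro m hm hok
    have h1 := hn₀ m hm hok.1 hok.2.1 hok.2.2
    rw [hS, abs_le] at h1
    have hf : (0 : ℝ) < ((2 * m).factorial : ℝ) := by positivity
    have hg := gg_pos hyp m
    unfold tt
    rw [div_le_iff₀ hf]
    nlinarith [h1.2, mul_pos hg hf]
  -- for all `m`: `tt ≤ C₁ gg`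
  obtain ⟨C₁, hC₁, hle⟩ : ∃ C₁ : ℝ, 0 < C₁ ∧ ∀ m, 1 ≤ m → tt p q m ≤ C₁ * gg p q m := by
    refine ⟨2 + ∑ m ∈ Finset.range n₀, tt p q m / gg p q m, ?_, ?_⟩
    · have : 0 ≤ ∑ m ∈ Finset.range n₀, tt p q m / gg p q m :=
        Finset.sum_nonneg fun m _ => div_nonneg (tt_nonneg p q m) (gg_pos hyp m).le
      linarith
    · intro m hm
      have hg := gg_pos hyp m
      have h0 : 0 ≤ ∑ m ∈ Finset.range n₀, tt p q m / gg p q m :=
        Finset.sum_nonneg fun m _ => div_nonneg (tt_nonneg p q m) (gg_pos hyp m).le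
      rcases lt_or_ge m n₀ with h | h
      · have h1 : tt p q m / gg p q m ≤ ∑ m ∈ Finset.range n₀, tt p q m / gg p q m :=
          Finset.single_le_sum (f := fun m => tt p q m / gg p q m)
            (fun m _ => div_nonneg (tt_nonneg p q m) (gg_pos hyp m).le) (Finset.mem_range.mpr h)
        rw [div_le_iff₀ hg] at h1
        nlinarith
      · by_cases hok : Ok p q m
        · have := hle' m h hok
          nlinarith
        · rw [tt_zero (by omega) hok]
          positivity
  -- transitive classes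
  obtain ⟨B, hB⟩ := exists_nat_gt (24 / kap p q)
  have hB2 : 2 ≤ B := by
    have h1 : kap p q ≤ 1 / 2 := by
      unfold kap
      have : (0 : ℝ) ≤ 1 / p := by positivity
      have : (0 : ℝ) ≤ 1 / q := by positivity
      linarith
    have h2 : (48 : ℝ) ≤ 24 / kap p q := by
      rw [le_div_iff₀ hkap]
      linarith
    have h3 : (48 : ℝ) < B := lt_of_le_of_lt h2 hB
    have h4 : 48 < B := by exact_mod_cast h3
    omega
  obtain ⟨Cb, hCb⟩ := big_le p q B hB2
  obtain ⟨n₁, hn₁⟩ := growth hyp B Cb hB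
  obtain ⟨C₂, hC₂, huc⟩ : ∃ C₂ : ℝ, 0 < C₂ ∧ ∀ m, 1 ≤ m → (uc p q m : ℝ) ≤ C₂ * tt p q m := by
    refine ⟨(B ^ B : ℕ) + 2 + ∑ m ∈ Finset.range (n₀ + n₁), ((2 * m).factorial : ℝ), ?_, ?_⟩
    · positivity
    · intro m hm
      have ht := tt_nonneg p q m
      have h0 : 0 ≤ ∑ m ∈ Finset.range (n₀ + n₁), ((2 * m).factorial : ℝ) := by positivity
      rcases lt_or_ge m (n₀ + n₁) with h | h
      · have h1 : ((2 * m).factorial : ℝ) ≤ ∑ m ∈ Finset.range (n₀ + n₁), ((2 * m).factorial : ℝ) :=
          Finset.single_le_sum (f := fun m => ((2 * m).factorial : ℝ))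
            (fun m _ => by positivity) (Finset.mem_range.mpr h)
        have h2 : (uc p q m : ℝ) ≤ (u p q m : ℝ) := by exact_mod_cast uc_le p q m
        have h3 := u_le_fac p q m
        have h4 : (0 : ℝ) ≤ ((B ^ B : ℕ) : ℝ) := by positivity
        nlinarith [mul_le_mul_of_nonneg_right h1 ht]
      · by_cases hok : Ok p q m
        · -- split by the size of the automorphism group
          let P1 : MapClass p q m → Prop := fun x => ∃ M : MapOn p q (Fin (2 * m)),
            Quotient.mk (mapSetoid p q _) M = x ∧ Nat.card (AutM M.1) ≤ B ^ B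
          let P2 : MapClass p q m → Prop := fun x => ∃ M : MapOn p q (Fin (2 * m)),
            Quotient.mk (mapSetoid p q _) M = x ∧ TripTrans M.1 ∧ B ^ B ≤ Nat.card (AutM M.1)
          have hsplit : uc p q m ≤ Nat.card {x // P1 x} + Nat.card {x // P2 x} := by
            unfold uc
            have key : ∀ x : MapClass p q m, (∃ M : MapOn p q (Fin (2 * m)),
                Quotient.mk (mapSetoid p q _) M = x ∧ TripTrans M.1) → P1 x ∨ P2 x := by
              rintro x ⟨M, hM, htr⟩
              rcases le_total (Nat.card (AutM M.1)) (B ^ B) with h1 | h1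
              · exact Or.inl ⟨M, hM, h1⟩
              · exact Or.inr ⟨M, hM, htr, h1⟩
            rw [← Nat.card_sum]
            let f : {x : MapClass p q m // ∃ M : MapOn p q (Fin (2 * m)),
                Quotient.mk (mapSetoid p q _) M = x ∧ TripTrans M.1} →
                {x // P1 x} ⊕ {x // P2 x} := fun x =>
              if h : P1 x.1 then Sum.inl ⟨x.1, h⟩ else Sum.inr ⟨x.1, (key x.1 x.2).resolve_left h⟩
            apply Nat.card_le_card_of_injective f
            intro x y hxy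
            simp only [f] at hxy
            split_ifs at hxy with h1 h2
            · exact Subtype.ext (by simpa using hxy)
            · exact Subtype.ext (by simpa using hxy)
          have h1 := aut_bound p q m (B ^ B)
          have h2 := hCb m hm
          have h3 := hn₁ m (by omega) hok
          have h4 := hge m (by omega) hok
          have hf : (0 : ℝ) < ((2 * m).factorial : ℝ) := by positivity
          have h5 : ((Nat.card {x // P1 x} : ℕ) : ℝ) ≤ ((B ^ B : ℕ) : ℝ) * tt p q m := by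
            unfold tt
            rw [← mul_div_assoc, le_div_iff₀ hf]
            exact_mod_cast h1
          have h6 : ((Nat.card {x // P2 x} : ℕ) : ℝ) ≤ 2 * tt p q m := by
            calc ((Nat.card {x // P2 x} : ℕ) : ℝ)
                ≤ (((Cb + 2 * m) * (2 * m) ^ (6 * m / B) : ℕ) : ℝ) := by exact_mod_cast h2
              _ ≤ gg p q m := h3
              _ ≤ 2 * tt p q m := h4
          have h7 : (uc p q m : ℝ) ≤ (Nat.card {x // P1 x} : ℝ) + (Nat.card {x // P2 x} : ℝ) := by
            exact_mod_cast hsplit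
          nlinarith
        · have h1 : u p q m = 0 := by
            have := u_le p q m
            rw [NMap_zero p q m (by omega) hok] at this
            omega
          have h2 := uc_le p q m
          have h3 : uc p q m = 0 := by omega
          rw [h3]
          simp only [Nat.cast_zero]
          positivity
  -- convolution
  obtain ⟨C₃, hC₃, hconv⟩ := conv_le hyp
  -- general bound of the sum, given `u ≤ C t` below
  have hsum : ∀ (C m : ℕ), 1 ≤ m → Ok p q m → n₀ ≤ m →
      (∀ k, 1 ≤ k → k < m → (u p q k : ℝ) ≤ (C : ℝ) * tt p q k) →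
      (ud p q m : ℝ) ≤ 2 * C₂ * C * C₁ ^ 2 * C₃ / m * tt p q m := by
    intro C m hm hok hn hu
    have hm0 : (0 : ℝ) < m := by exact_mod_cast hm
    have h1 : (ud p q m : ℝ) ≤ ∑ m₁ ∈ Finset.Icc 1 (m / 2), (uc p q m₁ : ℝ) * (u p q (m - m₁) : ℝ) := by
      exact_mod_cast ud_le_sum p q m
    have h2 : ∑ m₁ ∈ Finset.Icc 1 (m / 2), (uc p q m₁ : ℝ) * (u p q (m - m₁) : ℝ) ≤
        ∑ m₁ ∈ Finset.Icc 1 (m / 2), (C₂ * C) * (tt p q m₁ * tt p q (m - m₁)) := by
      apply Finset.sum_le_sum
      intro m₁ hm₁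
      rw [Finset.mem_Icc] at hm₁
      have e1 := huc m₁ hm₁.1
      have e2 := hu (m - m₁) (by omega) (by omega)
      have e3 : (0 : ℝ) ≤ (u p q (m - m₁) : ℝ) := Nat.cast_nonneg _
      have e4 := tt_nonneg p q m₁
      calc (uc p q m₁ : ℝ) * (u p q (m - m₁) : ℝ) ≤ (C₂ * tt p q m₁) * (C * tt p q (m - m₁)) :=
            mul_le_mul e1 e2 e3 (by positivity)
        _ = (C₂ * C) * (tt p q m₁ * tt p q (m - m₁)) := by ring
    have h3 : ∑ m₁ ∈ Finset.Icc 1 (m / 2), (C₂ * C) * (tt p q m₁ * tt p q (m - m₁)) =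
        ∑ m₁ ∈ (Finset.Icc 1 (m / 2)).filter (fun m₁ => Ok p q m₁),
          (C₂ * C) * (tt p q m₁ * tt p q (m - m₁)) := by
      rw [Finset.sum_filter]
      apply Finset.sum_congr rfl
      intro m₁ hm₁
      rw [Finset.mem_Icc] at hm₁
      split_ifs with hok₁
      · rfl
      · rw [tt_zero (by omega) hok₁]
        ring
    have h4 : ∑ m₁ ∈ (Finset.Icc 1 (m / 2)).filter (fun m₁ => Ok p q m₁),
          (C₂ * C) * (tt p q m₁ * tt p q (m - m₁)) ≤
        ∑ m₁ ∈ (Finset.Icc 1 (m / 2)).filter (fun m₁ => Ok p q m₁),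
          (C₂ * C * C₁ ^ 2) * (gg p q m₁ * gg p q (m - m₁)) := by
      apply Finset.sum_le_sum
      intro m₁ hm₁
      rw [Finset.mem_filter, Finset.mem_Icc] at hm₁
      have e1 := hle m₁ hm₁.1.1
      have e2 := hle (m - m₁) (by omega)
      have e3 := tt_nonneg p q (m - m₁)
      have e4 := (gg_pos hyp m₁).le
      have e5 : tt p q m₁ * tt p q (m - m₁) ≤ (C₁ * gg p q m₁) * (C₁ * gg p q (m - m₁)) :=
        mul_le_mul e1 e2 e3 (by positivity)
      have e6 : (0 : ℝ) ≤ C₂ * C := by positivity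
      calc (C₂ * C) * (tt p q m₁ * tt p q (m - m₁))
          ≤ (C₂ * C) * ((C₁ * gg p q m₁) * (C₁ * gg p q (m - m₁))) :=
            mul_le_mul_of_nonneg_left e5 e6
        _ = _ := by ring
    have h4' := h4.trans_eq (Finset.mul_sum _ _ _).symm
    have h5 := hconv m hm hok
    have h6 := hge m hn hok
    have e6 : (0 : ℝ) ≤ C₂ * C * C₁ ^ 2 := by positivity
    calc (ud p q m : ℝ) ≤ (C₂ * C * C₁ ^ 2) * (C₃ / m * gg p q m) := by
          refine h1.trans (h2.trans ?_)
          rw [h3]
          exact h4'.trans (mul_le_mul_of_nonneg_left h5 e6)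
      _ ≤ (C₂ * C * C₁ ^ 2) * (C₃ / m * (2 * tt p q m)) := by gcongr
      _ = _ := by ring
  -- all classes
  obtain ⟨C₄, hC₄⟩ : ∃ C₄ : ℕ, ∀ m, 1 ≤ m → (u p q m : ℝ) ≤ (C₄ : ℝ) * tt p q m := by
    obtain ⟨n₂, hn₂⟩ := exists_nat_ge (4 * C₂ * C₁ ^ 2 * C₃)
    obtain ⟨C, hC⟩ := exists_nat_ge (2 * C₂ +
      ∑ m ∈ Finset.range (n₀ + n₂ + 1), ((2 * m).factorial : ℝ))
    refine ⟨C, fun m => ?_⟩
    induction m using Nat.strong_induction_on with
    | _ m ih =>
      intro hm
      have ht := tt_nonneg p q m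
      have hs0 : 0 ≤ ∑ m ∈ Finset.range (n₀ + n₂ + 1), ((2 * m).factorial : ℝ) := by positivity
      rcases lt_or_ge m (n₀ + n₂ + 1) with h | h
      · have h1 : ((2 * m).factorial : ℝ) ≤
            ∑ m ∈ Finset.range (n₀ + n₂ + 1), ((2 * m).factorial : ℝ) :=
          Finset.single_le_sum (f := fun m => ((2 * m).factorial : ℝ))
            (fun m _ => by positivity) (Finset.mem_range.mpr h)
        have h3 := u_le_fac p q m
        have h4 : ((2 * m).factorial : ℝ) ≤ C := by linarith
        exact h3.trans (mul_le_mul_of_nonneg_right h4 ht)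
      · by_cases hok : Ok p q m
        · have h1 := hsum C m hm hok (by omega) (fun k hk hkm => ih k hkm hk)
          have h2 := huc m hm
          have h3 : (u p q m : ℝ) ≤ (uc p q m : ℝ) + (ud p q m : ℝ) := by
            exact_mod_cast u_le_add p q m
          have hm0 : (0 : ℝ) < m := by exact_mod_cast hm
          have h4 : 4 * C₂ * C₁ ^ 2 * C₃ ≤ (m : ℝ) := by
            refine hn₂.trans ?_
            exact_mod_cast (by omega : n₂ ≤ m)
          have h5 : 2 * C₂ * C * C₁ ^ 2 * C₃ / m ≤ C / 2 := by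
            rw [div_le_iff₀ hm0]
            have hC0 : (0 : ℝ) ≤ C := Nat.cast_nonneg _
            nlinarith [mul_le_mul_of_nonneg_left h4 hC0]
          have h6 : C₂ ≤ (C : ℝ) / 2 := by linarith
          calc (u p q m : ℝ) ≤ C₂ * tt p q m + 2 * C₂ * C * C₁ ^ 2 * C₃ / m * tt p q m := by linarith
            _ ≤ (C / 2) * tt p q m + (C / 2) * tt p q m := by gcongr
            _ = C * tt p q m := by ring
        · have h1 : u p q m = 0 := by
            have := u_le p q m
            rw [NMap_zero p q m (by omega) hok] at this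
            omega
          rw [h1]
          simp only [Nat.cast_zero]
          positivity
  -- conclusion
  intro ε hε
  obtain ⟨n₃, hn₃⟩ := exists_nat_ge (2 * C₂ * C₄ * C₁ ^ 2 * C₃ / ε)
  refine ⟨n₀ + n₃ + 1, fun m hm => ?_⟩
  change (ud p q m : ℝ) ≤ ε * tt p q m
  by_cases hok : Ok p q m
  · have h1 := hsum C₄ m (by omega) hok (by omega) (fun k hk _ => hC₄ k hk)
    have hm0 : (0 : ℝ) < m := by exact_mod_cast (by omega : 0 < m)
    have h2 : 2 * C₂ * C₄ * C₁ ^ 2 * C₃ / m ≤ ε := by
      rw [div_le_iff₀ hm0]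
      rw [div_le_iff₀ hε] at hn₃
      have : (n₃ : ℝ) ≤ m := by exact_mod_cast (by omega : n₃ ≤ m)
      nlinarith
    exact h1.trans (mul_le_mul_of_nonneg_right h2 (tt_nonneg p q m))
  · have h1 : u p q m = 0 := by
      have := u_le p q m
      rw [NMap_zero p q m (by omega) hok] at this
      omega
    have h2 := ud_le p q m
    have h3 : ud p q m = 0 := by omega
    rw [h3]
    simp only [Nat.cast_zero]
    have := tt_nonneg p q m
    positivity

end MPbcd198.A
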